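import Mathlib
import Pool.Agent.W823.QT.Stm

/-!
MP_26aa9e_pr, project QT: smallness of the interaction with a fixed path (`TH_T`).
-/

set_option autoImplicit false

namespace Pool.Agent.W369.QTTH

open MeasureTheory ProbabilityTheory Filter Topology
open scoped ENNReal NNReal
open Pool.Agent.W823.QT

lemma Ex_sub_one_le (t : ℝ≥0∞) (ht : t ≤ 1) : Ex t - 1 ≤ 2 * t := by
  have hne : t ≠ ∞ := ne_top_of_le_ne_top ENNReal.one_ne_top ht
  obtain ⟨s, rfl⟩ : ∃ s : ℝ≥0, t = s := ⟨t.toNNReal, (ENNReal.coe_toNNReal hne).symm⟩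
  have hs1 : (s : ℝ) ≤ 1 := by exact_mod_cast ht
  have hs0 : (0 : ℝ) ≤ s := s.2
  have h1 : Ex (s : ℝ≥0∞) = ENNReal.ofReal (Real.exp s) := by
    unfold Ex
    have : ((s : ℝ≥0∞) : EReal) = ((s : ℝ) : EReal) := rfl
    rw [this, EReal.exp_coe]
  have h2 : Real.exp s ≤ 1 + 2 * s := by
    have h := Real.abs_exp_sub_one_sub_id_le (x := (s : ℝ)) (by rw [abs_of_nonneg hs0]; exact hs1)
    have h3 := (abs_le.mp h).2
    nlinarith
  rw [h1]
  apply tsub_le_iff_right.mpr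
  have h4 : (2 : ℝ≥0∞) * s + 1 = ENNReal.ofReal (1 + 2 * s) := by
    rw [ENNReal.ofReal_add (by norm_num) (by positivity), ENNReal.ofReal_mul (by norm_num)]
    simp [add_comm]
  rw [h4]
  exact ENNReal.ofReal_le_ofReal h2

lemma sum_natAbs (h : ℕ → ℝ≥0∞) (i : ℕ) (J : Finset ℤ) :
    ∑ j ∈ J, h (((i : ℤ) - j).natAbs) ≤ 2 * ∑' k : ℕ, h k := by
  have h1 : ∑ j ∈ J, h (((i : ℤ) - j).natAbs) ≤ ∑' j : ℤ, h (((i : ℤ) - j).natAbs) :=
    ENNReal.sum_le_tsum J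
  have h2 : ∑' j : ℤ, h (((i : ℤ) - j).natAbs) = ∑' j : ℤ, h (j.natAbs) :=
    (Equiv.subLeft (i : ℤ)).tsum_eq (fun j : ℤ => h j.natAbs)
  have h3 : ∑' j : ℤ, h (j.natAbs) =
      ∑' n : ℕ, h ((n : ℤ).natAbs) + ∑' n : ℕ, h ((-((n : ℤ) + 1)).natAbs) :=
    (HasSum.of_nat_of_neg_add_one (f := fun j : ℤ => h j.natAbs)
      ENNReal.summable.hasSum ENNReal.summable.hasSum).tsum_eq
  have h4 : ∑' n : ℕ, h ((-((n : ℤ) + 1)).natAbs) ≤ ∑' n : ℕ, h n := by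
    have h5 : ∀ n : ℕ, h ((-((n : ℤ) + 1)).natAbs) = h (n + 1) := by
      intro n
      have h6 : (-((n : ℤ) + 1)).natAbs = n + 1 := by omega
      rw [h6]
    simp_rw [h5]
    exact ENNReal.tsum_comp_le_tsum_of_injective (f := fun n : ℕ => n + 1)
      (fun a b hab => by simpa using hab) h
  calc ∑ j ∈ J, h (((i : ℤ) - j).natAbs) ≤ _ := h1
    _ = _ := h2
    _ = _ := h3
    _ ≤ ∑' n : ℕ, h n + ∑' n : ℕ, h n := by
        refine add_le_add (le_of_eq ?_) h4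
        rfl
    _ = 2 * ∑' k : ℕ, h k := by rw [two_mul]

lemma regroup (g : ℕ → ℝ≥0∞) :
    ∑' r : ℕ, ∑' k : ℕ, g (k + r) = ∑' n : ℕ, ((n : ℝ≥0∞) + 1) * g n := by
  have h1 : ∑' r : ℕ, ∑' k : ℕ, g (k + r) = ∑' x : ℕ × ℕ, g (x.2 + x.1) :=
    (ENNReal.tsum_prod (f := fun r k : ℕ => g (k + r))).symm
  have h0 : ∑' y : (Σ n : ℕ, (Finset.HasAntidiagonal.antidiagonal n : Finset (ℕ × ℕ))),
      g ((Finset.HasAntidiagonal.sigmaAntidiagonalEquivProd (A := ℕ) y).2 +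
        (Finset.HasAntidiagonal.sigmaAntidiagonalEquivProd (A := ℕ) y).1) = ∑' x : ℕ × ℕ, g (x.2 + x.1) :=
    Equiv.tsum_eq (Finset.HasAntidiagonal.sigmaAntidiagonalEquivProd (A := ℕ)) (fun x : ℕ × ℕ => g (x.2 + x.1))
  rw [h1, ← h0, ENNReal.tsum_sigma']
  apply tsum_congr
  intro n
  rw [tsum_fintype]
  have h2 : ∀ x : (Finset.HasAntidiagonal.antidiagonal n : Finset (ℕ × ℕ)),
      g ((Finset.HasAntidiagonal.sigmaAntidiagonalEquivProd (A := ℕ) ⟨n, x⟩).2 +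
        (Finset.HasAntidiagonal.sigmaAntidiagonalEquivProd (A := ℕ) ⟨n, x⟩).1) = g n := by
    intro x
    have := Finset.HasAntidiagonal.mem_antidiagonal.mp x.2
    have h3 : (Finset.HasAntidiagonal.sigmaAntidiagonalEquivProd (A := ℕ) ⟨n, x⟩) = (x : ℕ × ℕ) := rfl
    rw [h3, add_comm, this]
  rw [Finset.sum_congr rfl (fun x _ => h2 x), Finset.sum_const]
  simp

instance inst_iid {d : ℕ} (q : Measure (Fin d → ℤ)) [IsProbabilityMeasure q] :
    IsProbabilityMeasure (iid q) := by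
  unfold iid
  infer_instance

lemma meas_pos {d : ℕ} (m : ℕ) : Measurable (fun a : ℕ → Fin d → ℤ => pos a m) := by
  unfold pos
  exact Finset.measurable_fun_sum _ (fun i _ => measurable_pi_apply i)

lemma p_le {d : ℕ} {q : Measure (Fin d → ℤ)} [IsProbabilityMeasure q]
    {p : ℕ → (Fin d → ℤ) → ℝ≥0∞} {g : ℕ → ℝ≥0∞} {c : ℝ≥0∞}
    {η : ℕ → (ℕ → Fin d → ℤ) → ℝ≥0∞} (K : Ker d q p g c η) (k : ℕ) (x : Fin d → ℤ) :
    p k x ≤ g k := by
  have h := K.bound k 0 x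
  simpa [pos] using h

lemma g_tsum_le {d : ℕ} {q : Measure (Fin d → ℤ)} [IsProbabilityMeasure q]
    {p : ℕ → (Fin d → ℤ) → ℝ≥0∞} {g : ℕ → ℝ≥0∞} {c : ℝ≥0∞}
    {η : ℕ → (ℕ → Fin d → ℤ) → ℝ≥0∞} (K : Ker d q p g c η) :
    c * ∑' k : ℕ, g k ≤ 1 / 32 := by
  refine le_trans ?_ K.small
  gcongr with k
  calc g k = 1 * g k := by rw [one_mul]
    _ ≤ ((k : ℝ≥0∞) + 1) * g k := by
      gcongr
      exact le_add_self

lemma num1 : (2 : ℝ≥0∞) * (1 / 32) ≤ 1 := by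
  rw [← mul_div_assoc, mul_one]
  apply ENNReal.div_le_of_le_mul
  norm_num

lemma num2 : (2 : ℝ≥0∞) * (2 * (1 / 32)) ≤ 1 := by
  rw [← mul_div_assoc, mul_one, ← mul_div_assoc]
  apply ENNReal.div_le_of_le_mul
  norm_num

lemma num3 : (8 : ℝ≥0∞) * (1 / 32) ≤ 7 / 16 := by
  have h : (8 : ℝ≥0∞) * (1 / 32) = ENNReal.ofReal (8 / 32) := by
    rw [ENNReal.ofReal_div_of_pos (by norm_num)]
    simp [ENNReal.ofReal_ofNat, div_eq_mul_inv]
  have h' : (7 : ℝ≥0∞) / 16 = ENNReal.ofReal (7 / 16) := by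
    rw [ENNReal.ofReal_div_of_pos (by norm_num)]
    simp [ENNReal.ofReal_ofNat]
  rw [h, h']
  apply ENNReal.ofReal_le_ofReal
  norm_num

lemma arg_le {d : ℕ} {q : Measure (Fin d → ℤ)} [IsProbabilityMeasure q]
    {p : ℕ → (Fin d → ℤ) → ℝ≥0∞} {g : ℕ → ℝ≥0∞} {c : ℝ≥0∞}
    {η : ℕ → (ℕ → Fin d → ℤ) → ℝ≥0∞} (K : Ker d q p g c η) (J : Finset ℤ)
    (z : ℤ → Fin d → ℤ) (i : ℕ) (x : Fin d → ℤ) :
    c * ∑ j ∈ J, p ((i : ℤ) - j).natAbs (x - z j) ≤ 2 * (1 / 32) := by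
  calc c * ∑ j ∈ J, p ((i : ℤ) - j).natAbs (x - z j)
      ≤ c * ∑ j ∈ J, g ((i : ℤ) - j).natAbs := by
        gcongr with j hj
        exact p_le K _ _
    _ ≤ c * (2 * ∑' k : ℕ, g k) := by
        gcongr
        exact sum_natAbs g i J
    _ = 2 * (c * ∑' k : ℕ, g k) := by ring
    _ ≤ 2 * (1 / 32) := by
        gcongr
        exact g_tsum_le K

lemma vf_le {d : ℕ} {q : Measure (Fin d → ℤ)} [IsProbabilityMeasure q]
    {p : ℕ → (Fin d → ℤ) → ℝ≥0∞} {g : ℕ → ℝ≥0∞} {c : ℝ≥0∞}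
    {η : ℕ → (ℕ → Fin d → ℤ) → ℝ≥0∞} (K : Ker d q p g c η) (J : Finset ℤ)
    (z : ℤ → Fin d → ℤ) (i : ℕ) (x : Fin d → ℤ) :
    vf p c J z i x ≤ 2 * (c * ∑ j ∈ J, p ((i : ℤ) - j).natAbs (x - z j)) := by
  unfold vf
  exact Ex_sub_one_le _ ((arg_le K J z i x).trans num1)

lemma vf_int {d : ℕ} {q : Measure (Fin d → ℤ)} [IsProbabilityMeasure q]
    {p : ℕ → (Fin d → ℤ) → ℝ≥0∞} {g : ℕ → ℝ≥0∞} {c : ℝ≥0∞}
    {η : ℕ → (ℕ → Fin d → ℤ) → ℝ≥0∞} (K : Ker d q p g c η) (J : Finset ℤ)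
    (z : ℤ → Fin d → ℤ) (i m : ℕ) (x : Fin d → ℤ) :
    ∫⁻ a, vf p c J z i (x + pos a m) ∂(iid q) ≤ 4 * (c * ∑' k : ℕ, g (k + m)) := by
  have hm : ∀ j : ℤ, Measurable (fun a : ℕ → Fin d → ℤ =>
      p ((i : ℤ) - j).natAbs ((x - z j) + pos a m)) := by
    intro j
    exact (Measurable.of_discrete (f := fun y : Fin d → ℤ =>
      p ((i : ℤ) - j).natAbs ((x - z j) + y))).comp (meas_pos m)
  calc ∫⁻ a, vf p c J z i (x + pos a m) ∂(iid q)
      ≤ ∫⁻ a, (2 * c) * ∑ j ∈ J, p ((i : ℤ) - j).natAbs ((x - z j) + pos a m) ∂(iid q) := by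
        apply lintegral_mono
        intro a
        refine (vf_le K J z i _).trans (le_of_eq ?_)
        have hx : ∀ j : ℤ, x + pos a m - z j = (x - z j) + pos a m := by
          intro j
          abel
        simp only [hx, mul_assoc]
    _ = (2 * c) * ∑ j ∈ J, ∫⁻ a, p ((i : ℤ) - j).natAbs ((x - z j) + pos a m) ∂(iid q) := by
        rw [lintegral_const_mul _ (Finset.measurable_fun_sum _ (fun j _ => hm j)),
          lintegral_finsetSum _ (fun j _ => hm j)]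
    _ ≤ (2 * c) * ∑ j ∈ J, g (((i : ℤ) - j).natAbs + m) := by
        gcongr with j hj
        exact K.bound _ _ _
    _ ≤ (2 * c) * (2 * ∑' k : ℕ, g (k + m)) := by
        gcongr
        exact sum_natAbs (fun k => g (k + m)) i J
    _ = 4 * (c * ∑' k : ℕ, g (k + m)) := by ring

theorem main (h1 : EPS_T) (h2 : M1_T) (h3 : FSUM_T) (_h4 : SUPA_T) : TH_T := by
  intro d q _ p g c η K J z
  constructor
  · intro i x
    calc vf p c J z i x ≤ 2 * (c * ∑ j ∈ J, p ((i : ℤ) - j).natAbs (x - z j)) := vf_le K J z i x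
      _ ≤ 2 * (2 * (1 / 32)) := mul_le_mul' le_rfl (arg_le K J z i x)
      _ ≤ 1 := num2
  · intro m
    obtain ⟨hS, hle⟩ := h1 d q p g c η K
    set ε : ℕ → ℝ≥0∞ := fun k => Ex (c * g k) - 1 with hε
    set Ψ : ℕ → ℝ≥0∞ := fun m => 4 * (c * ∑' k : ℕ, g (k + m)) with hΨ
    have hanti : Antitone Ψ := by
      intro m m' hmm
      simp only [hΨ]
      gcongr with k
      exact K.anti (by omega)
    have hstep : ∀ i : ℕ, (∫⁻ a, V η i a * vf p c J z i (pos a i) ∂(iid q)) / A q η i ≤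
        EE ε i (fun S => Ψ (free i S)) := by
      intro i
      apply ENNReal.div_le_of_le_mul'
      exact h2 d q η ε K.loc hle hS.1 i (vf p c J z i) Ψ hanti
        (fun m x => vf_int K J z i m x)
    calc ∑ i ∈ Finset.Icc 1 m, (∫⁻ a, V η i a * vf p c J z i (pos a i) ∂(iid q)) / A q η i
        ≤ ∑ i ∈ Finset.Icc 1 m, EE ε i (fun S => Ψ (free i S)) :=
          Finset.sum_le_sum (fun i _ => hstep i)
      _ ≤ ∑ i ∈ Finset.range (m + 1), EE ε i (fun S => Ψ (free i S)) := by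
          apply Finset.sum_le_sum_of_subset
          intro i hi
          rw [Finset.mem_Icc] at hi
          rw [Finset.mem_range]
          omega
      _ ≤ 2 * ∑' r : ℕ, Ψ r := h3 ε hS m Ψ hanti
      _ = 8 * (c * ∑' n : ℕ, ((n : ℝ≥0∞) + 1) * g n) := by
          simp only [hΨ]
          rw [ENNReal.tsum_mul_left, ENNReal.tsum_mul_left, regroup]
          ring
      _ ≤ 8 * (1 / 32) := by
          gcongr
          exact K.small
      _ ≤ 7 / 16 := num3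

end Pool.Agent.W369.QTTH
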