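import Mathlib
import Pool.Agent.W757.RC.St4
import Pool.Agent.H790R3.RB.TFAM

/-! Task RQ-LOCM (MP_8f2e1c_an, project of helper757): continuation of marked cycles. -/

set_option autoImplicit false

open Topology Filter Metric Set MeasureTheory
open Pool.Agent.H790R3.RB
open scoped OnePoint

namespace Pool.Agent.W369.RQLOCM

open Pool.Agent.W757.RC
open Pool.Agent.H790R3.RB.FAM

theorem iter_contr {d s : ℕ} {X : Type} (y : CV d) (b : Fin s → X → ℂ) (x : X)
    (k : Option (Fin s)) (p : ℕ) (R θ : ℝ) (hθ0 : 0 ≤ θ) (hθ1 : θ < 1)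
    (h : ∀ z : ℂ, ‖z‖ < R → ∃ a z' : ℂ, a ≠ 0 ∧ ‖z'‖ ≤ θ * ‖z‖ ∧
      (hF y)^[p] (ch b k x z) = a • ch b k x z') (j : ℕ) :
    ∀ z : ℂ, ‖z‖ < R → ∃ a z' : ℂ, a ≠ 0 ∧ ‖z'‖ ≤ θ ^ j * ‖z‖ ∧
      (hF y)^[p * j] (ch b k x z) = a • ch b k x z' := by
  induction j with
  | zero => intro z hz; exact ⟨1, z, one_ne_zero, by simp, by simp⟩
  | succ j ih =>
    intro z hz
    obtain ⟨a, z', ha, hz', h1⟩ := h z hz
    have hz'' : ‖z'‖ ≤ ‖z‖ := hz'.trans (mul_le_of_le_one_left (norm_nonneg z) hθ1.le)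
    obtain ⟨a2, z2, ha2, hz2, h2⟩ := ih z' (lt_of_le_of_lt hz'' hz)
    refine ⟨a ^ (d ^ (p * j)) * a2, z2, mul_ne_zero (pow_ne_zero _ ha) ha2, ?_, ?_⟩
    · calc ‖z2‖ ≤ θ ^ j * ‖z'‖ := hz2
        _ ≤ θ ^ j * (θ * ‖z‖) := mul_le_mul_of_nonneg_left hz' (pow_nonneg hθ0 j)
        _ = θ ^ (j + 1) * ‖z‖ := by ring
    · rw [Nat.mul_succ, Function.iterate_add_apply, h1, hF_iter_smul, h2, smul_smul]

theorem ch_continuous {s : ℕ} {X : Type} (b : Fin s → X → ℂ) (k : Option (Fin s)) (x : X) :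
    Continuous (fun z => ch b k x z) := by
  cases k with
  | none => exact continuous_const.prodMk continuous_id
  | some k => exact (continuous_const.add continuous_id).prodMk continuous_const

theorem base_par {d s : ℕ} {X : Type} {y : CV d} (hy : ND y) (b : Fin s → X → ℂ) (x : X)
    (per : Option (Fin s) → ℕ) (hper : ∀ k, 1 ≤ per k) (R : Option (Fin s) → ℝ) (θ : ℝ)
    (hθ0 : 0 ≤ θ) (hθ1 : θ < 1)
    (h : ∀ k, ∀ z : ℂ, ‖z‖ < R k → ∃ a z' : ℂ, a ≠ 0 ∧ ‖z'‖ ≤ θ * ‖z‖ ∧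
      (hF y)^[per k] (ch b k x z) = a • ch b k x z') (k k' : Option (Fin s)) (z z' a : ℂ) (m : ℕ)
    (hz : ‖z‖ < R k) (hz' : ‖z'‖ < R k') (he : (hF y)^[m] (ch b k x z) = a • ch b k' x z') :
    cr ((hF y)^[m] (ch b k x 0)) (ch b k' x 0) = 0 := by
  have ha : a ≠ 0 := by
    intro h0
    rw [h0, zero_smul] at he
    exact hy.iter_ne m (ch_ne_zero b k x z) he
  have h1 : ∀ j : ℕ, ∃ u v : ℂ, ‖u‖ ≤ θ ^ (per k' * j) * ‖z‖ ∧ ‖v‖ ≤ θ ^ (per k * j) * ‖z'‖ ∧
      cr ((hF y)^[m] (ch b k x u)) (ch b k' x v) = 0 := by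
    intro j
    obtain ⟨c, u, hc, hu, h2⟩ := iter_contr y b x k (per k) (R k) θ hθ0 hθ1 (h k) (per k' * j) z hz
    obtain ⟨c', v, hc', hv, h3⟩ :=
      iter_contr y b x k' (per k') (R k') θ hθ0 hθ1 (h k') (per k * j) z' hz'
    refine ⟨u, v, hu, hv, ?_⟩
    have h4 : (hF y)^[m] ((hF y)^[per k * (per k' * j)] (ch b k x z)) =
        (hF y)^[per k' * (per k * j)] ((hF y)^[m] (ch b k x z)) := by
      rw [← Function.iterate_add_apply, ← Function.iterate_add_apply]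
      congr 1
      ring
    rw [h2, he, hF_iter_smul, hF_iter_smul, h3, smul_smul] at h4
    have h5 : cr (c ^ d ^ m • (hF y)^[m] (ch b k x u)) (ch b k' x v) = 0 := by
      rw [h4, cr_smul_left, cr_self, mul_zero]
    rw [cr_smul_left] at h5
    exact (mul_eq_zero.1 h5).resolve_left (pow_ne_zero _ hc)
  choose u v hu hv huv using h1
  have hlim : ∀ (q : ℕ), 1 ≤ q → ∀ (w : ℕ → ℂ) (C : ℝ), (∀ j, ‖w j‖ ≤ θ ^ (q * j) * C) →
      Tendsto w atTop (𝓝 0) := by
    intro q hq w C hw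
    have e1 : Tendsto (fun j : ℕ => (θ ^ q) ^ j * C) atTop (𝓝 (0 * C)) :=
      (tendsto_pow_atTop_nhds_zero_of_lt_one (pow_nonneg hθ0 q)
        (pow_lt_one₀ hθ0 hθ1 (by omega))).mul_const C
    rw [zero_mul] at e1
    apply squeeze_zero_norm _ e1
    intro j
    rw [← pow_mul]
    exact hw j
  have hu0 := hlim (per k') (hper k') u _ hu
  have hv0 := hlim (per k) (hper k) v _ hv
  have hc1 : Continuous (fun w : ℂ => (hF y)^[m] (ch b k x w)) :=
    (hF_iter_continuous d m).comp (continuous_const.prodMk (ch_continuous b k x))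
  have t1 := (hc1.tendsto 0).comp hu0
  have t2 := ((ch_continuous b k' x).tendsto 0).comp hv0
  have t3 : Tendsto (fun j => cr ((hF y)^[m] (ch b k x (u j))) (ch b k' x (v j))) atTop
      (𝓝 (cr ((hF y)^[m] (ch b k x 0)) (ch b k' x 0))) := by
    unfold cr
    exact (t1.fst_nhds.mul t2.snd_nhds).sub (t1.snd_nhds.mul t2.fst_nhds)
  simp only [huv] at t3
  exact tendsto_nhds_unique t3 tendsto_const_nhds |>.symm ▸ rfl

theorem task : StLOCM := by
  intro d n S₀ x₁ s per β hM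
  have hx₁ : x₁ ∈ S₀.U := hM.xU
  have hUo : IsOpen S₀.U := isOpen_ball
  -- translated family
  set w : (Fin n → ℂ) → CV d := fun x => S₀.co (x₁ + x) with hw
  have htr : Tendsto (fun x : Fin n → ℂ => x₁ + x) (𝓝 0) (𝓝 x₁) :=
    (continuous_const.add continuous_id).tendsto' _ _ (by simp)
  have hwd : ∀ᶠ x in 𝓝 0, DifferentiableAt ℂ w x := by
    filter_upwards [htr.eventually (hUo.mem_nhds hx₁)] with x hx
    have h1 : DifferentiableAt ℂ S₀.co (x₁ + x) := S₀.hco.differentiableAt (hUo.mem_nhds hx)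
    exact h1.comp x ((differentiableAt_const x₁).add differentiableAt_id)
  have hw0 : w 0 = S₀.co x₁ := by simp [hw]
  have hND : ND (w 0) := by rw [hw0]; exact S₀.nd x₁ hx₁
  obtain ⟨θ', hθ'1, hθ'⟩ : ∃ θ : ℝ, θ < 1 ∧
      ∀ k, ‖deriv (ret (S₀.co x₁) (mp β) k (per k)) 0‖ < θ := by
    obtain ⟨k0, hk0⟩ := Finite.exists_max
      (fun k => ‖deriv (ret (S₀.co x₁) (mp β) k (per k)) 0‖)
    refine ⟨(‖deriv (ret (S₀.co x₁) (mp β) k0 (per k0)) 0‖ + 1) / 2, by linarith [hM.mul k0],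
      fun k => ?_⟩
    linarith [hk0 k, hM.mul k0]
  have hbex : ∀ k : Fin s, ∃ b : (Fin n → ℂ) → ℂ, b 0 = β k ∧
      (∀ᶠ x in 𝓝 0, DifferentiableAt ℂ b x) ∧
      ∀ᶠ q : (Fin n → ℂ) × ℂ in 𝓝 (0, 0), ∃ a z' : ℂ, a ≠ 0 ∧ ‖z'‖ ≤ θ' * ‖q.2‖ ∧
        (hF (w q.1))^[per (some k)] (cp (some k) (b q.1 + q.2)) =
          a • cp (some k) (b q.1 + z') := by
    intro k
    refine FPk w hwd hND (some k) (per (some k)) (β k) θ' hθ'1 ?_ ?_
    · rw [hw0]
      have h1 := hM.cyc (some k)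
      rw [ch_eq, add_zero] at h1
      exact h1
    · rw [hw0]
      have h1 := hθ' (some k)
      rw [deriv_ret] at h1
      exact h1
  choose b' hb0 hbd hb using hbex
  -- the base points as functions of the parameter
  set b : Fin s → (Fin n → ℂ) → ℂ := fun k x => b' k (x - x₁) with hbdef
  have hbx₁ : ∀ k, b k x₁ = β k := fun k => by simp only [hbdef, sub_self]; exact hb0 k
  have htr' : Tendsto (fun x : Fin n → ℂ => x - x₁) (𝓝 x₁) (𝓝 0) :=
    (continuous_id.sub continuous_const).tendsto' _ _ (by simp)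
  have hbd' : ∀ k, ∀ᶠ x in 𝓝 x₁, DifferentiableAt ℂ (b k) x := by
    intro k
    filter_upwards [htr'.eventually (hbd k)] with x hx
    exact hx.comp x (differentiableAt_id.sub (differentiableAt_const x₁))
  have hbc : ∀ k, ContinuousAt (b k) x₁ := fun k => (hbd' k).self_of_nhds.continuousAt
  set θ : ℝ := max (max θ' S₀.θ) 0 with hθdef
  have hθ0 : 0 ≤ θ := le_max_right _ _
  have hθ1 : θ < 1 := max_lt (max_lt hθ'1 S₀.hθ) zero_lt_one
  have hθ'le : θ' ≤ θ := (le_max_left _ _).trans (le_max_left _ _)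
  have hSθle : S₀.θ ≤ θ := (le_max_right _ _).trans (le_max_left _ _)
  -- contraction on discs of radius `τ`
  have hcontr1 : ∀ᶠ q : (Fin n → ℂ) × ℂ in 𝓝 (x₁, 0), ∀ k : Fin s, ∃ a z' : ℂ, a ≠ 0 ∧
      ‖z'‖ ≤ θ * ‖q.2‖ ∧
      (hF (S₀.co q.1))^[per (some k)] (ch b (some k) q.1 q.2) = a • ch b (some k) q.1 z' := by
    refine eventually_all.2 fun k => ?_
    have h1 : Tendsto (fun q : (Fin n → ℂ) × ℂ => (q.1 - x₁, q.2)) (𝓝 (x₁, 0)) (𝓝 (0, 0)) :=
      ((continuous_fst.sub continuous_const).prodMk continuous_snd).tendsto' _ _ (by simp)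
    filter_upwards [h1.eventually (hb k)] with q hq
    obtain ⟨a, z', ha, hz', h2⟩ := hq
    refine ⟨a, z', ha, hz'.trans (mul_le_mul_of_nonneg_right hθ'le (norm_nonneg _)), ?_⟩
    have h3 : w (q.1 - x₁) = S₀.co q.1 := by simp [hw]
    rw [h3] at h2
    exact h2
  -- separation of the base points
  have hsep1 : ∀ᶠ x in 𝓝 x₁, ∀ k k' : Option (Fin s), ∀ m : Fin (per k),
      cr ((hF (S₀.co x))^[(m : ℕ)] (ch b k x 0)) (ch b k' x 0) = 0 →
        k = k' ∧ per k ∣ (m : ℕ) := by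
    refine eventually_all.2 fun k => eventually_all.2 fun k' => eventually_all.2 fun m => ?_
    by_cases hcase : k = k' ∧ per k ∣ (m : ℕ)
    · exact Eventually.of_forall fun t _ => hcase
    · have hcoc : ContinuousAt S₀.co x₁ :=
        (S₀.hco.differentiableAt (hUo.mem_nhds hx₁)).continuousAt
      have hchc : ∀ k : Option (Fin s), ContinuousAt (fun x => ch b k x 0) x₁ := by
        intro k
        cases k with
        | none => exact continuousAt_const.prodMk continuousAt_const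
        | some k => exact ((hbc k).add continuousAt_const).prodMk continuousAt_const
      have c5 : ContinuousAt (fun x => (hF (S₀.co x))^[(m : ℕ)] (ch b k x 0)) x₁ :=
        ContinuousAt.comp (f := fun x => (S₀.co x, ch b k x 0))
          (g := fun q : CV d × (ℂ × ℂ) => (hF q.1)^[(m : ℕ)] q.2)
          (hF_iter_continuous d m).continuousAt (hcoc.prodMk (hchc k))
      have h1 : ContinuousAt (fun x => cr ((hF (S₀.co x))^[(m : ℕ)] (ch b k x 0))
          (ch b k' x 0)) x₁ := by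
        unfold cr
        exact (c5.fst.mul (hchc k').snd).sub (c5.snd.mul (hchc k').fst)
      have hch : ∀ k : Option (Fin s), ch b k x₁ 0 = ch (mp β) k () 0 := by
        intro k
        cases k with
        | none => rfl
        | some k => simp only [ch, mp, hbx₁]
      have h2 : ∀ᶠ x in 𝓝 x₁, cr ((hF (S₀.co x))^[(m : ℕ)] (ch b k x 0)) (ch b k' x 0) ≠ 0 := by
        apply h1.eventually_ne
        rw [hch, hch]
        intro h3
        exact hcase (hM.dis k k' m h3)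
      filter_upwards [h2] with t ht ht2
      exact absurd ht2 ht
  obtain ⟨τ, hτ, hτall⟩ := Metric.eventually_nhds_iff_ball.1 hcontr1
  have hbclose : ∀ᶠ x in 𝓝 x₁, ∀ k, ‖b k x - β k‖ < (τ / 2) / 8 := by
    refine eventually_all.2 fun k => ?_
    have h1 : ContinuousAt (fun x => ‖b k x - β k‖) x₁ := ((hbc k).sub continuousAt_const).norm
    apply h1.eventually_lt continuousAt_const
    rw [hbx₁, sub_self, norm_zero]
    positivity
  have hUev : ∀ᶠ x in 𝓝 x₁, x ∈ S₀.U := hUo.mem_nhds hx₁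
  have hτev : ∀ᶠ x in 𝓝 x₁, x ∈ ball x₁ τ := ball_mem_nhds x₁ hτ
  have hbd2 : ∀ᶠ x in 𝓝 x₁, ∀ k, DifferentiableAt ℂ (b k) x := eventually_all.2 hbd'
  obtain ⟨ε, hε, hεall⟩ := Metric.eventually_nhds_iff_ball.1
    (hUev.and (hbd2.and (hsep1.and (hbclose.and hτev))))
  have hcontr2 : ∀ x ∈ ball x₁ ε, ∀ k : Fin s, ∀ z : ℂ, ‖z‖ < τ → ∃ a z' : ℂ, a ≠ 0 ∧
      ‖z'‖ ≤ θ * ‖z‖ ∧
      (hF (S₀.co x))^[per (some k)] (ch b (some k) x z) = a • ch b (some k) x z' := by
    intro x hx k z hz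
    refine hτall (x, z) ?_ k
    rw [← ball_prod_same]
    exact ⟨(hεall x hx).2.2.2.2, by simpa using hz⟩
  have hcontr3 : ∀ x ∈ ball x₁ ε, ∀ k : Option (Fin s), ∀ z : ℂ,
      ‖z‖ < (k.elim S₀.r₀ fun _ => τ / 2) → ∃ a z' : ℂ, a ≠ 0 ∧ ‖z'‖ ≤ θ * ‖z‖ ∧
      (hF (S₀.co x))^[per k] (ch b k x z) = a • ch b k x z' := by
    intro x hx k z hz
    cases k with
    | none =>
      obtain ⟨a, z', ha, hz', h1⟩ := S₀.contr x (hεall x hx).1 none z hz
      refine ⟨a, z', ha, hz'.trans (mul_le_mul_of_nonneg_right hSθle (norm_nonneg _)), ?_⟩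
      rw [hM.pn]
      exact h1
    | some k => exact hcontr2 x hx k z (lt_trans hz (by simp only [Option.elim]; linarith))
  refine ⟨ε, τ / 2, θ, b, hε, by positivity, hθ0, hθ1, fun x hx => (hεall x hx).1, hbx₁,
    fun k x hx => ((hεall x hx).2.1 k).differentiableWithinAt, fun x hx => (hεall x hx).2.2.2.1,
    hcontr3, ?_, ?_⟩
  · intro x hx k k' z z' a m hz hz' he
    have hy : ND (S₀.co x) := S₀.nd x (hεall x hx).1
    have h1 := base_par hy b x per hM.pp (fun k => k.elim S₀.r₀ fun _ => τ / 2) θ hθ0 hθ1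
      (hcontr3 x hx) k k' z z' a m hz hz' he
    have hpos : ∀ k : Option (Fin s), ‖(0 : ℂ)‖ < (k.elim S₀.r₀ fun _ => τ / 2) := by
      intro k
      rw [norm_zero]
      cases k with
      | none => exact S₀.hr₀
      | some k => simp only [Option.elim]; positivity
    obtain ⟨c, z1, hc, hz1, h2⟩ := iter_contr (S₀.co x) b x k (per k) _ θ hθ0 hθ1
      (hcontr3 x hx k) (m / per k) 0 (hpos k)
    rw [norm_zero, mul_zero, norm_le_zero_iff] at hz1
    rw [hz1] at h2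
    have hmod : m % per k < per k := Nat.mod_lt _ (hM.pp k)
    have h3 : m = m % per k + per k * (m / per k) := (Nat.mod_add_div m (per k)).symm
    have h4 : (hF (S₀.co x))^[m] (ch b k x 0) =
        c ^ (d ^ (m % per k)) • (hF (S₀.co x))^[m % per k] (ch b k x 0) := by
      conv_lhs => rw [h3]
      rw [Function.iterate_add_apply, h2, hF_iter_smul]
    rw [h4, cr_smul_left] at h1
    have h5 := (mul_eq_zero.1 h1).resolve_left (pow_ne_zero _ hc)
    obtain ⟨h6, h7⟩ := (hεall x hx).2.2.1 k k' ⟨m % per k, hmod⟩ h5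
    refine ⟨h6, ?_⟩
    rw [h3]
    exact dvd_add h7 (dvd_mul_right _ _)
  · intro x hx k z hz hcr
    have h1 := (hεall x hx).2.2.2.1 k
    have h2 : ‖z - b k x‖ < τ := by
      have h3 : z - b k x = (z - β k) - (b k x - β k) := by ring
      calc ‖z - b k x‖ = ‖(z - β k) - (b k x - β k)‖ := by rw [← h3]
        _ ≤ ‖z - β k‖ + ‖b k x - β k‖ := norm_sub_le _ _
        _ < τ := by linarith
    obtain ⟨a, z', ha, hz', h4⟩ := hcontr2 x hx k (z - b k x) h2
    have h5 : ch b (some k) x (z - b k x) = (z, 1) := by simp [ch]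
    rw [h5] at h4
    rw [h4, cr_smul_left, ← h5] at hcr
    have h6 := cr_ch b (some k) x ((mul_eq_zero.1 hcr).resolve_left ha)
    rw [h6] at hz'
    have h7 : ‖z - b k x‖ ≤ 0 := by nlinarith [norm_nonneg (z - b k x)]
    exact sub_eq_zero.1 (norm_le_zero_iff.1 h7)

end Pool.Agent.W369.RQLOCM
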