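import Pool.Agent.H547R7.Stm

/-! Task PRG-ALG (MP_ca1109_lc, project of helper951): the small-bias generator. -/

set_option autoImplicit false

namespace Pool.Agent.W369.PrgAlg

open Pool.Agent.H547R7 Polynomial

theorem lte (l d : ℕ) (hd : 1 ≤ d) (h : 3 ^ (l + 1) ∣ 2 ^ d - 1) : 2 * 3 ^ l ≤ d := by
  have h3 : 3 ∣ 2 ^ d - 1 := dvd_trans (dvd_pow_self 3 (Nat.succ_ne_zero l)) h
  have heven : Even d := by
    rcases Nat.even_or_odd d with he | ho
    · exact he
    · exfalso
      obtain ⟨j, rfl⟩ := ho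
      have h1 : 2 ^ (2 * j + 1) % 3 = 2 := by
        rw [pow_succ, pow_mul, Nat.mul_mod, Nat.pow_mod]
        norm_num
      have h2 : 1 ≤ 2 ^ (2 * j + 1) := Nat.one_le_two_pow
      have h3' : (2 ^ (2 * j + 1) - 1) % 3 = 0 := Nat.mod_eq_zero_of_dvd h3
      generalize 2 ^ (2 * j + 1) = q at h1 h2 h3'
      omega
  obtain ⟨j, hj⟩ := heven
  have hj2 : d = 2 * j := by omega
  have hj0 : j ≠ 0 := by omega
  subst hj2
  have h4 : (2 : ℕ) ^ (2 * j) - 1 = 4 ^ j - 1 ^ j := by
    rw [pow_mul]; norm_num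
  rw [h4] at h
  have : Fact (Nat.Prime 3) := ⟨Nat.prime_three⟩
  have h5 : padicValNat 3 (4 ^ j - 1 ^ j) = padicValNat 3 (4 - 1) + padicValNat 3 j :=
    padicValNat.pow_sub_pow (p := 3) (by decide) (by norm_num) (by norm_num) (by norm_num) hj0
  have h6 : padicValNat 3 (4 - 1) = 1 := by
    norm_num
  have h7 : 4 ^ j - 1 ^ j ≠ 0 := by
    have : 1 < 4 ^ j := Nat.one_lt_pow hj0 (by norm_num)
    rw [one_pow]
    omega
  have h8 : l + 1 ≤ padicValNat 3 (4 ^ j - 1 ^ j) :=
    (padicValNat_dvd_iff_le h7).1 h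
  have h9 : 3 ^ l ∣ j := by
    rw [padicValNat_dvd_iff_le hj0]
    omega
  have := Nat.le_of_dvd (Nat.pos_of_ne_zero hj0) h9
  omega

theorem field_part (l : ℕ) : ∃ (K : Type) (_ : Field K) (_ : Algebra (ZMod 2) K) (ζ : K),
    ζ ^ (3 ^ (l + 1)) = 1 ∧
    ∀ Q : Polynomial (ZMod 2), Q ≠ 0 → Polynomial.aeval ζ Q = 0 → 2 * 3 ^ l ≤ Q.natDegree := by
  have hp2 : Fact (Nat.Prime 2) := ⟨Nat.prime_two⟩
  have hne : NeZero (3 ^ (l + 1)) := ⟨by positivity⟩
  have hne2 : NeZero ((3 ^ (l + 1) : ℕ) : ZMod 2) := ⟨by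
    rw [Nat.cast_pow]
    have h3 : ((3 : ℕ) : ZMod 2) = 1 := rfl
    rw [h3, one_pow]
    exact one_ne_zero⟩
  let K := CyclotomicField (3 ^ (l + 1)) (ZMod 2)
  have : IsCyclotomicExtension {3 ^ (l + 1)} (ZMod 2) K := inferInstance
  have : FiniteDimensional (ZMod 2) K := IsCyclotomicExtension.finiteDimensional {3 ^ (l + 1)} (ZMod 2) K
  have : Finite K := Module.finite_of_finite (ZMod 2)
  have : Fintype K := Fintype.ofFinite K
  let ζ : K := IsCyclotomicExtension.zeta (3 ^ (l + 1)) (ZMod 2) K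
  have hζ : IsPrimitiveRoot ζ (3 ^ (l + 1)) := IsCyclotomicExtension.zeta_spec _ _ _
  refine ⟨K, inferInstance, inferInstance, ζ, hζ.pow_eq_one, ?_⟩
  intro Q hQ h0
  have hζ0 : ζ ≠ 0 := hζ.ne_zero (NeZero.ne _)
  have h1 : ζ ^ (Fintype.card K - 1) = 1 := FiniteField.pow_card_sub_one_eq_one ζ hζ0
  have h2 := hζ.dvd_of_pow_eq_one _ h1
  have h3 : Fintype.card K = 2 ^ Module.finrank (ZMod 2) K := by
    rw [Module.card_eq_pow_finrank (K := ZMod 2) (V := K), ZMod.card]
  rw [h3] at h2
  have h4 : 1 ≤ Module.finrank (ZMod 2) K := Module.finrank_pos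
  have h5 := lte l _ h4 h2
  have h6 : Module.finrank (ZMod 2) K = (minpoly (ZMod 2) ζ).natDegree := by
    rw [(hζ.powerBasis (ZMod 2)).finrank, IsPrimitiveRoot.powerBasis_dim]
  rw [h6] at h5
  exact h5.trans (natDegree_le_natDegree (minpoly.degree_le_of_ne_zero (ZMod 2) ζ hQ h0))

/-- value in `F₂` -/
def z (b : Bool) : ZMod 2 := if b then 1 else 0

theorem z_and (a b : Bool) : z (a && b) = z a * z b := by
  cases a <;> cases b <;> simp [z]

theorem z_inj {a b : Bool} (h : z a = z b) : a = b := by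
  cases a <;> cases b <;> simp_all [z]

theorem z_decide (k : ℕ) : z (decide (k % 2 = 1)) = (k : ZMod 2) := by
  rcases Nat.mod_two_eq_zero_or_one k with h | h
  · have h1 : (k : ZMod 2) = 0 := by
      rw [ZMod.natCast_eq_zero_iff]; exact Nat.dvd_of_mod_eq_zero h
    rw [h1, h]; simp [z]
  · have h1 : (k : ZMod 2) = 1 := by
      have : ((k : ℕ) : ZMod 2) = ((1 : ℕ) : ZMod 2) := by
        rw [ZMod.natCast_eq_natCast_iff]; exact h
      simpa using this
    rw [h1, h]; simp [z]

theorem z_par (n : ℕ) (f : ℕ → Bool) : z (par n f) = ∑ i ∈ Finset.range n, z (f i) := by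
  unfold par
  rw [z_decide]
  induction n with
  | zero => simp
  | succ n ih =>
    rw [List.range_succ, List.countP_append, Finset.sum_range_succ, Nat.cast_add, ih]
    congr 1
    cases h : f n <;> simp [z, h]

theorem z_card {ι : Type} (T : Finset ι) (f : ι → Bool) :
    z (decide ((T.filter fun i => f i = true).card % 2 = 1)) = ∑ i ∈ T, z (f i) := by
  rw [z_decide, Finset.card_filter, Nat.cast_sum]
  refine Finset.sum_congr rfl fun i _ => ?_
  cases h : f i <;> simp [z]

theorem getD_map_range (n : ℕ) (f : ℕ → Bool) (k : ℕ) (hk : k < n) :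
    ((List.range n).map f).getD k false = f k := by
  simp [List.getD_eq_getElem?_getD, hk]

theorem getD_ofFn {N : ℕ} (w : Fin N → Bool) (k : ℕ) (hk : k < N) :
    (List.ofFn w).getD k false = w ⟨k, hk⟩ := by
  simp [List.getD_eq_getElem?_getD, hk]

theorem par_congr (n : ℕ) (f g : ℕ → Bool) (h : ∀ i < n, f i = g i) : par n f = par n g := by
  unfold par
  congr 3
  apply List.countP_congr
  intro i hi
  rw [h i (List.mem_range.1 hi)]

theorem pw_congr (n : ℕ) (a a' : List Bool) (h : ∀ i < n, a.getD i false = a'.getD i false)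
    (i : ℕ) : pw n a i = pw n a' i := by
  induction i with
  | zero => rfl
  | succ i ih =>
    unfold pw conv
    rw [ih]
    apply List.map_congr_left
    intro k _
    apply par_congr
    intro j hj
    rw [h j hj]

section ev

variable {K : Type} [Field K] [Algebra (ZMod 2) K]

/-- evaluation of the polynomial with coefficients `a` -/
noncomputable def ev (n : ℕ) (ζ : K) (a : List Bool) : K :=
  ∑ k ∈ Finset.range n, algebraMap (ZMod 2) K (z (a.getD k false)) * ζ ^ k

theorem ev_conv (n : ℕ) (ζ : K) (hζ : ζ ^ n = 1) (a b : List Bool) :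
    ev n ζ (conv n a b) = ev n ζ a * ev n ζ b := by
  unfold ev
  have h1 : ∀ k ∈ Finset.range n,
      algebraMap (ZMod 2) K (z ((conv n a b).getD k false)) * ζ ^ k =
      ∑ i ∈ Finset.range n, algebraMap (ZMod 2) K (z (a.getD i false)) *
        algebraMap (ZMod 2) K (z (b.getD ((k + n - i) % n) false)) * ζ ^ k := by
    intro k hk
    unfold conv
    rw [getD_map_range _ _ _ (Finset.mem_range.1 hk), z_par, map_sum, Finset.sum_mul]
    refine Finset.sum_congr rfl fun i _ => ?_
    rw [z_and, map_mul]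
  rw [Finset.sum_congr rfl h1, Finset.sum_comm, Finset.sum_mul]
  refine Finset.sum_congr rfl fun i hi => ?_
  rw [Finset.mul_sum]
  have hin : i < n := Finset.mem_range.1 hi
  have hn : 0 < n := by omega
  refine Finset.sum_nbij' (fun k => (k + n - i) % n) (fun k => (k + i) % n) ?_ ?_ ?_ ?_ ?_
  · intro k _; exact Finset.mem_range.2 (Nat.mod_lt _ hn)
  · intro k _; exact Finset.mem_range.2 (Nat.mod_lt _ hn)
  · intro k hk
    have hk := Finset.mem_range.1 hk
    rw [Nat.mod_add_mod]
    have : k + n - i + i = k + n := by omega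
    rw [this, Nat.add_mod_right, Nat.mod_eq_of_lt hk]
  · intro k hk
    have hk := Finset.mem_range.1 hk
    rcases Nat.lt_or_ge (k + i) n with h | h
    · rw [Nat.mod_eq_of_lt h]
      have : k + i + n - i = k + n := by omega
      rw [this, Nat.add_mod_right, Nat.mod_eq_of_lt hk]
    · rw [Nat.mod_eq_sub_mod h, Nat.mod_eq_of_lt (by omega : k + i - n < n)]
      have : k + i - n + n - i = k := by omega
      rw [this, Nat.mod_eq_of_lt hk]
  · intro k hk
    have hk := Finset.mem_range.1 hk
    have h2 : ζ ^ k = ζ ^ i * ζ ^ ((k + n - i) % n) := by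
      rw [← pow_eq_pow_mod _ hζ, ← pow_add]
      have : i + (k + n - i) = k + n := by omega
      rw [this, pow_add, hζ, mul_one]
    rw [h2]
    ring

theorem ev_pw (n : ℕ) (hn : 0 < n) (ζ : K) (hζ : ζ ^ n = 1) (a : List Bool) (i : ℕ) :
    ev n ζ (pw n a i) = ev n ζ a ^ i := by
  induction i with
  | zero =>
    unfold ev pw
    rw [pow_zero]
    rw [Finset.sum_eq_single 0]
    · rw [getD_map_range _ _ _ hn]
      simp [z]
    · intro k hk hk0
      rw [getD_map_range _ _ _ (Finset.mem_range.1 hk)]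
      simp [z, hk0]
    · intro h
      exact absurd (Finset.mem_range.2 hn) h
  | succ i ih =>
    have : pw n a (i + 1) = conv n a (pw n a i) := rfl
    rw [this, ev_conv n ζ hζ, ih, pow_succ']

end ev

/-- flip the bit at place `j` of the second half -/
def fl (n j : ℕ) (w : Fin (2 * n) → Bool) : Fin (2 * n) → Bool :=
  fun k => if k.val = n + j then !w k else w k

theorem fl_fl (n j : ℕ) (w : Fin (2 * n) → Bool) : fl n j (fl n j w) = w := by
  funext k
  unfold fl
  by_cases h : k.val = n + j <;> simp [h]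

/-- the vector of the polynomial of `T` in the powers of the first half -/
def V (n : ℕ) (T : Finset ℕ) (w : Fin (2 * n) → Bool) (j : ℕ) : ZMod 2 :=
  ∑ i ∈ T, z ((pw n (List.ofFn w) i).getD j false)

theorem V_fl (n : ℕ) (T : Finset ℕ) (w : Fin (2 * n) → Bool) (j : ℕ) :
    V n T (fl n j w) = V n T w := by
  funext k
  unfold V
  refine Finset.sum_congr rfl fun i _ => ?_
  rw [pw_congr n (List.ofFn (fl n j w)) (List.ofFn w)]
  intro i hi
  rw [getD_ofFn _ i (by omega), getD_ofFn _ i (by omega)]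
  unfold fl
  rw [if_neg]
  simp only
  omega

/-- the parity -/
def P (n : ℕ) (T : Finset ℕ) (w : Fin (2 * n) → Bool) : Bool :=
  decide ((T.filter fun i => sbit n (List.ofFn w) i = true).card % 2 = 1)

theorem z_P (n : ℕ) (T : Finset ℕ) (w : Fin (2 * n) → Bool) :
    z (P n T w) = ∑ j ∈ Finset.range n, z ((List.ofFn w).getD (n + j) false) * V n T w j := by
  unfold P
  rw [z_card]
  unfold sbit V
  simp only [z_par, z_and]
  rw [Finset.sum_comm]
  refine Finset.sum_congr rfl fun j _ => ?_
  rw [Finset.mul_sum]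

theorem z_P_fl (n : ℕ) (T : Finset ℕ) (w : Fin (2 * n) → Bool) (j : ℕ) (hj : j < n) :
    z (P n T (fl n j w)) = z (P n T w) + V n T w j := by
  rw [z_P, z_P, V_fl]
  have h1 : ∀ i ∈ Finset.range n, z ((List.ofFn (fl n j w)).getD (n + i) false) * V n T w i =
      z ((List.ofFn w).getD (n + i) false) * V n T w i + if i = j then V n T w i else 0 := by
    intro i hi
    have hi := Finset.mem_range.1 hi
    rw [getD_ofFn _ (n + i) (by omega), getD_ofFn _ (n + i) (by omega)]
    unfold fl
    by_cases h : i = j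
    · subst h
      simp only [if_true]
      cases w ⟨n + i, _⟩
      · simp [z]
      · simp only [z, Bool.not_true, Bool.false_eq_true, if_false, if_true, zero_mul, one_mul]
        generalize V n T w i = c
        revert c
        decide
    · rw [if_neg (by simp only; omega), if_neg h, add_zero]
  rw [Finset.sum_congr rfl h1, Finset.sum_add_distrib]
  congr 1
  rw [Finset.sum_ite_eq' (Finset.range n) j, if_pos (Finset.mem_range.2 hj)]

theorem zmod2_ne {c : ZMod 2} (h : c ≠ 0) : c = 1 := by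
  revert c; decide

theorem P_fl (n : ℕ) (T : Finset ℕ) (w : Fin (2 * n) → Bool) (j : ℕ) (hj : j < n)
    (hV : V n T w j ≠ 0) : P n T (fl n j w) = !P n T w := by
  apply z_inj
  rw [z_P_fl n T w j hj, zmod2_ne hV]
  cases P n T w <;> simp [z]
  decide

/-- the sign -/
noncomputable def sg (n : ℕ) (T : Finset ℕ) (w : Fin (2 * n) → Bool) : ℝ :=
  if P n T w = true then -1 else 1

theorem abs_sum_le (n : ℕ) (T : Finset ℕ) :
    |∑ w : Fin (2 * n) → Bool, sg n T w| ≤
      ((Finset.univ.filter fun w : Fin (2 * n) → Bool => ∀ j < n, V n T w j = 0).card : ℝ) := by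
  classical
  rw [← Finset.sum_filter_add_sum_filter_not Finset.univ
    (fun w : Fin (2 * n) → Bool => ∀ j < n, V n T w j = 0)]
  have h0 : ∑ w ∈ Finset.univ.filter (fun w : Fin (2 * n) → Bool => ¬ ∀ j < n, V n T w j = 0),
      sg n T w = 0 := by
    set J : (Fin (2 * n) → Bool) → ℕ := fun w => sInf {j | j < n ∧ V n T w j ≠ 0} with hJ
    have hJm : ∀ w ∈ Finset.univ.filter
        (fun w : Fin (2 * n) → Bool => ¬ ∀ j < n, V n T w j = 0), J w < n ∧ V n T w (J w) ≠ 0 := by
      intro w hw
      rw [Finset.mem_filter] at hw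
      have h1 := hw.2
      push Not at h1
      obtain ⟨j, hj, hj2⟩ := h1
      exact Nat.sInf_mem (s := {j | j < n ∧ V n T w j ≠ 0}) ⟨j, hj, hj2⟩
    have hJf : ∀ w j, J (fl n j w) = J w := by
      intro w j
      simp only [hJ, V_fl]
    apply Finset.sum_involution (fun w _ => fl n (J w) w)
    · intro w hw
      obtain ⟨h1, h2⟩ := hJm w hw
      unfold sg
      rw [P_fl n T w (J w) h1 h2]
      cases P n T w <;> simp
    · intro w hw _ heq
      obtain ⟨h1, h2⟩ := hJm w hw
      have h3 := P_fl n T w (J w) h1 h2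
      rw [heq] at h3
      cases h4 : P n T w <;> simp [h4] at h3
    · intro w hw
      rw [Finset.mem_filter] at hw ⊢
      refine ⟨Finset.mem_univ _, ?_⟩
      rw [V_fl]
      exact hw.2
    · intro w hw
      rw [hJf, fl_fl]
  rw [h0, add_zero]
  refine (Finset.abs_sum_le_sum_abs _ _).trans ?_
  have h1 : ∀ w : Fin (2 * n) → Bool, |sg n T w| = 1 := by
    intro w
    unfold sg
    split_ifs <;> simp
  simp only [h1, Finset.sum_const, nsmul_eq_mul, mul_one]
  exact le_rfl

theorem pr_eq (n : ℕ) (T : Finset ℕ) :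
    pr (fun w : Fin (2 * n) → Bool => P n T w) - 1 / 2 =
      - (∑ w : Fin (2 * n) → Bool, sg n T w) / (2 * 2 ^ (2 * n)) := by
  unfold pr
  have hc : (Fintype.card (Fin (2 * n) → Bool) : ℝ) = 2 ^ (2 * n) := by
    rw [Fintype.card_fun, Fintype.card_fin, Fintype.card_bool]; push_cast; ring
  have h1 : ∑ w : Fin (2 * n) → Bool, sg n T w =
      2 ^ (2 * n) - 2 * ((Finset.univ.filter fun w : Fin (2 * n) → Bool => P n T w = true).card : ℝ) := by
    have h2 : ∀ w : Fin (2 * n) → Bool, sg n T w = 1 - 2 * (if P n T w = true then 1 else 0) := by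
      intro w
      unfold sg
      split_ifs <;> norm_num
    simp only [h2]
    rw [Finset.sum_sub_distrib, ← Finset.mul_sum, Finset.sum_boole, Finset.sum_const,
      Finset.card_univ, nsmul_eq_mul, mul_one, hc]
  rw [h1, hc]
  have h3 : (2 : ℝ) ^ (2 * n) ≠ 0 := by positivity
  field_simp
  ring

theorem bad_card (l m : ℕ) (T : Finset ℕ) (hT : T.Nonempty) (hTm : T ⊆ Finset.range m) :
    (Finset.univ.filter fun w : Fin (2 * 3 ^ (l + 1)) → Bool =>
      ∀ j < 3 ^ (l + 1), V (3 ^ (l + 1)) T w j = 0).card ≤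
      m * 2 ^ (2 * 3 ^ (l + 1) - 2 * 3 ^ l) := by
  classical
  obtain ⟨K, _, _, ζ, hζ, hmin⟩ := field_part l
  set n := 3 ^ (l + 1) with hn
  have hnpos : 0 < n := by positivity
  set r := 2 * 3 ^ l with hr
  have hrn : r ≤ n := by
    rw [hn, hr, pow_succ]; nlinarith [pow_pos (by norm_num : (0 : ℕ) < 3) l]
  set PP : K[X] := ∑ i ∈ T, X ^ i with hPP
  have hcoef : ∀ i, PP.coeff i = if i ∈ T then 1 else 0 := by
    intro i
    rw [hPP, finsetSum_coeff]
    simp only [coeff_X_pow]
    rw [Finset.sum_ite_eq]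
  have hPP0 : PP ≠ 0 := by
    obtain ⟨i, hi⟩ := hT
    intro h
    have h1 := hcoef i
    rw [h, coeff_zero, if_pos hi] at h1
    exact zero_ne_one h1
  have hdeg : PP.natDegree ≤ m := by
    rw [natDegree_le_iff_coeff_eq_zero]
    intro N hN
    rw [hcoef, if_neg]
    intro h
    have := Finset.mem_range.1 (hTm h)
    omega
  have hsub : (Finset.univ.filter fun w : Fin (2 * n) → Bool => ∀ j < n, V n T w j = 0) ⊆
      PP.roots.toFinset.biUnion
        (fun y => Finset.univ.filter fun w : Fin (2 * n) → Bool => ev n ζ (List.ofFn w) = y) := by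
    intro w hw
    rw [Finset.mem_filter] at hw
    rw [Finset.mem_biUnion]
    refine ⟨ev n ζ (List.ofFn w), ?_, by simp⟩
    rw [Multiset.mem_toFinset, mem_roots hPP0, IsRoot.def, hPP, eval_finsetSum]
    simp only [eval_pow, eval_X]
    have h1 : ∀ i ∈ T, ev n ζ (List.ofFn w) ^ i =
        ∑ k ∈ Finset.range n, algebraMap (ZMod 2) K (z ((pw n (List.ofFn w) i).getD k false)) *
          ζ ^ k := by
      intro i _
      rw [← ev_pw n hnpos ζ hζ]
      rfl
    rw [Finset.sum_congr rfl h1, Finset.sum_comm]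
    apply Finset.sum_eq_zero
    intro k hk
    rw [← Finset.sum_mul, ← map_sum]
    have h2 : ∑ i ∈ T, z ((pw n (List.ofFn w) i).getD k false) = 0 :=
      hw.2 k (Finset.mem_range.1 hk)
    rw [h2, map_zero, zero_mul]
  have hfib : ∀ y ∈ PP.roots.toFinset,
      (Finset.univ.filter fun w : Fin (2 * n) → Bool => ev n ζ (List.ofFn w) = y).card ≤
        2 ^ (2 * n - r) := by
    intro y _
    have hcard : (Finset.univ : Finset (Fin (2 * n - r) → Bool)).card = 2 ^ (2 * n - r) := by
      rw [Finset.card_univ, Fintype.card_fun, Fintype.card_fin, Fintype.card_bool]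
    rw [← hcard]
    apply Finset.card_le_card_of_injOn
      (fun (w : Fin (2 * n) → Bool) (k : Fin (2 * n - r)) => w ⟨r + k.val, by have := k.2; omega⟩)
    · intro w _
      exact Finset.mem_coe.2 (Finset.mem_univ _)
    · intro w hw w' hw' heq
      rw [Finset.mem_coe, Finset.mem_filter] at hw hw'
      have hge : ∀ k (hk : k < 2 * n), r ≤ k → w ⟨k, hk⟩ = w' ⟨k, hk⟩ := by
        intro k hk hrk
        have h1 := congrFun heq ⟨k - r, by omega⟩
        simp only at h1
        have h2 : r + (k - r) = k := by omega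
        simp only [h2] at h1
        exact h1
      set Q : (ZMod 2)[X] := ∑ k ∈ Finset.range r,
        C (z ((List.ofFn w).getD k false) - z ((List.ofFn w').getD k false)) * X ^ k with hQ
      have hQc : ∀ k, Q.coeff k = if k ∈ Finset.range r then
          z ((List.ofFn w).getD k false) - z ((List.ofFn w').getD k false) else 0 := by
        intro k
        rw [hQ, finsetSum_coeff]
        simp only [coeff_C_mul, coeff_X_pow, mul_ite, mul_one, mul_zero]
        rw [Finset.sum_ite_eq]
      have hQe : aeval ζ Q = 0 := by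
        have h1 : aeval ζ Q = ∑ k ∈ Finset.range r,
            algebraMap (ZMod 2) K (z ((List.ofFn w).getD k false) -
              z ((List.ofFn w').getD k false)) * ζ ^ k := by
          rw [hQ, map_sum]
          refine Finset.sum_congr rfl fun k _ => ?_
          rw [map_mul, aeval_C, map_pow, aeval_X]
        have h2 : ∑ k ∈ Finset.range n,
            algebraMap (ZMod 2) K (z ((List.ofFn w).getD k false) -
              z ((List.ofFn w').getD k false)) * ζ ^ k = 0 := by
          have h3 : ev n ζ (List.ofFn w) - ev n ζ (List.ofFn w') = 0 := by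
            rw [hw.2, hw'.2, sub_self]
          unfold ev at h3
          rw [← Finset.sum_sub_distrib] at h3
          rw [← h3]
          refine Finset.sum_congr rfl fun k _ => ?_
          rw [map_sub, sub_mul]
        rw [h1, ← h2]
        apply Finset.sum_subset (Finset.range_mono hrn)
        intro k hk hk2
        have hk := Finset.mem_range.1 hk
        have hk2 : r ≤ k := by
          by_contra h
          exact hk2 (Finset.mem_range.2 (by omega))
        rw [getD_ofFn _ k (by omega), getD_ofFn _ k (by omega), hge k (by omega) hk2, sub_self,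
          map_zero, zero_mul]
      have hQ0 : Q = 0 := by
        by_contra hne
        have h1 := hmin Q hne hQe
        have h2 : Q.natDegree < r := by
          have hrpos : 0 < r := by positivity
          rw [natDegree_lt_iff_degree_lt hne, degree_lt_iff_coeff_zero]
          intro k hk
          rw [hQc, if_neg]
          intro h
          have := Finset.mem_range.1 h
          omega
        omega
      funext ⟨k, hk⟩
      by_cases hrk : r ≤ k
      · exact hge k hk hrk
      · have h1 := hQc k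
        rw [hQ0, coeff_zero, if_pos (Finset.mem_range.2 (by omega))] at h1
        have h2 := z_inj (sub_eq_zero.1 h1.symm)
        rw [getD_ofFn _ k hk, getD_ofFn _ k hk] at h2
        exact h2
  calc _ ≤ (PP.roots.toFinset.biUnion
        (fun y => Finset.univ.filter fun w : Fin (2 * n) → Bool =>
          ev n ζ (List.ofFn w) = y)).card := Finset.card_le_card hsub
    _ ≤ PP.roots.toFinset.card * 2 ^ (2 * n - r) := Finset.card_biUnion_le_card_mul _ _ _ hfib
    _ ≤ m * 2 ^ (2 * n - r) := by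
      apply Nat.mul_le_mul_right
      exact (Multiset.toFinset_card_le _).trans ((card_roots' PP).trans hdeg)

theorem t_ALG : S_ALG := by
  intro l m T hT hTm
  have h1 := pr_eq (3 ^ (l + 1)) T
  have h2 := abs_sum_le (3 ^ (l + 1)) T
  have h3 : ((Finset.univ.filter fun w : Fin (2 * 3 ^ (l + 1)) → Bool =>
      ∀ j < 3 ^ (l + 1), V (3 ^ (l + 1)) T w j = 0).card : ℝ) ≤
      (m : ℝ) * 2 ^ (2 * 3 ^ (l + 1) - 2 * 3 ^ l) := by
    have := bad_card l m T hT hTm
    exact_mod_cast this
  have h4 : |pr (fun w : Fin (2 * 3 ^ (l + 1)) → Bool => P (3 ^ (l + 1)) T w) - 1 / 2| ≤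
      (m : ℝ) / 2 ^ (2 * 3 ^ l) := by
    rw [h1, abs_div, abs_neg, abs_of_pos (by positivity : (0 : ℝ) < 2 * 2 ^ (2 * 3 ^ (l + 1))),
      div_le_div_iff₀ (by positivity) (by positivity)]
    have h5 : (2 : ℝ) ^ (2 * 3 ^ (l + 1) - 2 * 3 ^ l) * 2 ^ (2 * 3 ^ l) = 2 ^ (2 * 3 ^ (l + 1)) := by
      rw [← pow_add]
      congr 1
      have : 2 * 3 ^ l ≤ 2 * 3 ^ (l + 1) := by
        rw [pow_succ]; nlinarith [pow_pos (by norm_num : (0 : ℕ) < 3) l]
      omega
    calc |∑ w : Fin (2 * 3 ^ (l + 1)) → Bool, sg (3 ^ (l + 1)) T w| * 2 ^ (2 * 3 ^ l)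
        ≤ ((m : ℝ) * 2 ^ (2 * 3 ^ (l + 1) - 2 * 3 ^ l)) * 2 ^ (2 * 3 ^ l) :=
          mul_le_mul_of_nonneg_right (h2.trans h3) (by positivity)
      _ = (m : ℝ) * 2 ^ (2 * 3 ^ (l + 1)) := by rw [mul_assoc, h5]
      _ ≤ (m : ℝ) * (2 * 2 ^ (2 * 3 ^ (l + 1))) := by
        apply mul_le_mul_of_nonneg_left _ (Nat.cast_nonneg m)
        nlinarith [pow_pos (by norm_num : (0 : ℝ) < 2) (2 * 3 ^ (l + 1))]
  exact h4

end Pool.Agent.W369.PrgAlg
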