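import Pool.Agent.H547R7.Stm2
import Pool.Agent.H547R7.T_TST
import Pool.Agent.H547R7.T_SLI
import Pool.Agent.H547R7.T_THR

/-! Task PRG-CPX (MP_ca1109_lc, project of helper951): monotone complexity of the tests. -/

set_option autoImplicit false

namespace Pool.Agent.W369.PrgCpx

open Pool.Agent.H547R6 Pool.Agent.H547R7

theorem mc_mono {n s t : ℕ} {f : BF n} (h : MC n s f) (hst : s ≤ t) : MC n t f := by
  rcases h with h | ⟨l, hl, hls, hf⟩
  · exact Or.inl h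
  · exact Or.inr ⟨l, hl, hls.trans hst, hf⟩

theorem mc_pair {n s t : ℕ} {f g : BF n} (hf : MC n s f) (hg : MC n t g) :
    ∃ l, Gates MB n l ∧ l.length ≤ s + t ∧ MCa l f ∧ MCa l g := by
  rcases hf with hf | ⟨l, hl, hls, hf⟩
  · rcases hg with hg | ⟨l', hl', hls', hg⟩
    · exact ⟨[], Gates.nil, by simp, Or.inl hf, Or.inl hg⟩
    · exact ⟨l', hl', by omega, Or.inl hf, Or.inr hg⟩
  · rcases hg with hg | ⟨l', hl', hls', hg⟩
    · exact ⟨l, hl, by omega, Or.inr hf, Or.inl hg⟩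
    · refine ⟨l ++ l', TST_gates_append hl hl', by rw [List.length_append]; omega,
        Or.inr (TST_avail_left hf), Or.inr (SLI_avail_mono l hg)⟩

theorem mc_and {n s t : ℕ} {f g : BF n} (hf : MC n s f) (hg : MC n t g) :
    MC n (s + t + 1) (fun x => f x && g x) := by
  obtain ⟨l, hl, hls, hf, hg⟩ := mc_pair hf hg
  obtain ⟨l', h1, h2, h3⟩ := SLI_and hl hf hg
  rcases h3 with h3 | h3
  · exact Or.inl h3
  · exact Or.inr ⟨_, h1, by rw [List.length_append]; omega, h3⟩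

theorem mc_or {n s t : ℕ} {f g : BF n} (hf : MC n s f) (hg : MC n t g) :
    MC n (s + t + 1) (fun x => f x || g x) := by
  obtain ⟨l, hl, hls, hf, hg⟩ := mc_pair hf hg
  obtain ⟨l', h1, h2, h3⟩ := SLI_or hl hf hg
  rcases h3 with h3 | h3
  · exact Or.inl h3
  · exact Or.inr ⟨_, h1, by rw [List.length_append]; omega, h3⟩

theorem comp0_true {n : ℕ} (hn : 1 ≤ n) : Comp0 n n (fun _ => true) := by
  refine ⟨[fun x => x ⟨0, hn⟩ || !x ⟨0, hn⟩, fun x => !x ⟨0, hn⟩], 1, ?_, hn, ?_⟩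
  · exact AON.or 0 _ _ _ (AON.not 0 _ _ AON.nil (Or.inr ⟨⟨0, hn⟩, rfl⟩)) (Or.inr ⟨⟨0, hn⟩, rfl⟩)
      (Or.inl (by simp))
  · left
    have : (fun _ => true : BF n) = fun x => x ⟨0, hn⟩ || !x ⟨0, hn⟩ := by
      funext x
      simp
    rw [this]
    simp

theorem comp0_false {n : ℕ} (hn : 1 ≤ n) : Comp0 n n (fun _ => false) := by
  refine ⟨[fun x => x ⟨0, hn⟩ && !x ⟨0, hn⟩, fun x => !x ⟨0, hn⟩], 1, ?_, hn, ?_⟩
  · exact AON.and 0 _ _ _ (AON.not 0 _ _ AON.nil (Or.inr ⟨⟨0, hn⟩, rfl⟩)) (Or.inr ⟨⟨0, hn⟩, rfl⟩)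
      (Or.inl (by simp))
  · left
    have : (fun _ => false : BF n) = fun x => x ⟨0, hn⟩ && !x ⟨0, hn⟩ := by
      funext x
      simp
    rw [this]
    simp

theorem t_CPX0 (h : S_TST) : S_CPX := by
  intro e n C θ hn hC
  have hT := h n (rr e n) n (fun i => i.val % (n + 1)) (fun _ => true) (comp0_true hn)
  have hF := h n (rr e n) n (fun i => i.val % (n + 1)) (fun _ => false) (comp0_false hn)
  have hCC := h n (rr e n) n (fun i => i.val % (n + 1)) C hC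
  refine ⟨?_, ?_, ?_⟩
  · refine mc_mono (mc_and (hT (a1 e n)) (hF (a0 e n))) ?_
    omega
  · refine mc_mono (hF (b0 e n)) ?_
    omega
  · refine mc_mono (mc_or (hF (b0 e n)) (hCC θ)) ?_
    omega

theorem t_CPX : S_CPX := t_CPX0 (t_TST t_THR (t_SLI t_THR))

end Pool.Agent.W369.PrgCpx
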