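import Pool.Agent.H547R7.Stm

/-! Task PRG-FOO (MP_ca1109_lc, project of helper951): small-bias distributions fool the easy
circuits. -/

set_option autoImplicit false

namespace Pool.Agent.W369.PrgFoo

open Pool.Agent.H547R6 Pool.Agent.H547R7 Finset

theorem computes_ind {B : Set BFun} {n s : ℕ} {C : BF n} (P : BF n → Prop)
    (hvar : ∀ i, P (fun x => x i))
    (happ : ∀ (k : ℕ) (f : (Fin k → Bool) → Bool) (g : Fin k → BF n), (⟨k, f⟩ : BFun) ∈ B →
      (∀ j, P (g j)) → P (fun x => f fun j => g j x)) (hC : Computes B n s C) : P C := by
  obtain ⟨l, hl, -, hC⟩ := hC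
  have h1 : ∀ f ∈ l, P f := by
    clear hC
    induction hl with
    | nil => intro f hf; simp at hf
    | gate l k f g hf hg hl ih =>
      intro f' hf'
      rcases List.mem_cons.1 hf' with h | h
      · rw [h]
        apply happ k f g hf
        intro j
        rcases hg j with h2 | ⟨i, h2⟩
        · exact ih _ h2
        · rw [h2]; exact hvar i
      · exact ih _ h
  rcases hC with h | ⟨i, h⟩
  · exact h1 _ h
  · rw [h]; exact hvar i

/-- expectation -/
noncomputable def E {Ω : Type} [Fintype Ω] (f : Ω → ℝ) : ℝ := (∑ w, f w) / Fintype.card Ω

theorem pr_eq_E {Ω : Type} [Fintype Ω] (p : Ω → Bool) :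
    pr p = E (fun w => if p w = true then (1 : ℝ) else 0) := by
  unfold pr E
  rw [Finset.sum_boole]

/-- characters -/
noncomputable def chi {n : ℕ} (A : Finset (Fin n)) (x : Fin n → Bool) : ℝ :=
  ∏ i ∈ A, (if x i = true then -1 else 1)

theorem chi_par {n : ℕ} (A : Finset (Fin n)) (x : Fin n → Bool) :
    chi A x = if decide ((A.filter fun i => x i = true).card % 2 = 1) = true then -1 else 1 := by
  unfold chi
  rw [Finset.prod_ite, Finset.prod_const, Finset.prod_const_one, mul_one]
  rcases Nat.mod_two_eq_zero_or_one (A.filter fun i => x i = true).card with h | h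
  · rw [h, neg_one_pow_eq_pow_mod_two, h]; simp
  · rw [h, neg_one_pow_eq_pow_mod_two, h]; simp

theorem chi_xor {n : ℕ} (A : Finset (Fin n)) (x : Fin n → Bool) (b : Bool) :
    chi A (fun i => xor (x i) b) = chi A x * (if b = true then (-1) ^ A.card else 1) := by
  unfold chi
  cases b
  · simp
  · simp only [if_true]
    rw [← Finset.prod_const, ← Finset.prod_mul_distrib]
    refine Finset.prod_congr rfl fun i _ => ?_
    have key : ∀ c : Bool, (if (c ^^ true) = true then (-1 : ℝ) else 1) =
        (if c = true then -1 else 1) * -1 := by
      intro c; cases c <;> simp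
    exact key (x i)

theorem sum_chi {n : ℕ} (A : Finset (Fin n)) (hA : A.Nonempty) :
    ∑ x : Fin n → Bool, chi A x = 0 := by
  classical
  obtain ⟨i0, hi0⟩ := hA
  apply Finset.sum_involution (fun x _ => Function.update x i0 (!x i0))
  · intro x _
    unfold chi
    rw [← Finset.mul_prod_erase A _ hi0, ← Finset.mul_prod_erase A _ hi0]
    have h1 : ∏ i ∈ A.erase i0, (if Function.update x i0 (!x i0) i = true then (-1 : ℝ) else 1) =
        ∏ i ∈ A.erase i0, (if x i = true then (-1 : ℝ) else 1) := by
      refine Finset.prod_congr rfl fun i hi => ?_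
      rw [Function.update_of_ne (Finset.ne_of_mem_erase hi)]
    rw [h1, Function.update_self]
    cases x i0 <;> simp
  · intro x _ _ h
    have h1 := congrFun h i0
    rw [Function.update_self] at h1
    cases h2 : x i0 <;> simp [h2] at h1
  · intro x _
    simp
  · intro x _
    exact Finset.mem_univ _

section

variable {Ω : Type} [Fintype Ω] [Nonempty Ω] {n : ℕ}

theorem E_chi (D : Ω → Fin n → Bool) (β : ℝ)
    (h : ∀ T : Finset (Fin n), T.Nonempty →
      |pr (fun w => decide ((T.filter fun i => D w i = true).card % 2 = 1)) - 1 / 2| ≤ β)
    (A : Finset (Fin n)) (hA : A.Nonempty) : |E (fun w => chi A (D w))| ≤ 2 * β := by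
  have h1 : E (fun w => chi A (D w)) =
      1 - 2 * pr (fun w => decide ((A.filter fun i => D w i = true).card % 2 = 1)) := by
    unfold pr E
    have hc : (Fintype.card Ω : ℝ) ≠ 0 := by exact_mod_cast Fintype.card_ne_zero
    rw [← Finset.sum_boole]
    have h2 : ∀ w, chi A (D w) = 1 - 2 * (if decide ((A.filter fun i => D w i = true).card % 2 = 1)
        = true then 1 else 0) := by
      intro w
      rw [chi_par]
      split_ifs <;> norm_num
    simp only [h2]
    rw [Finset.sum_sub_distrib, ← Finset.mul_sum, Finset.sum_const, Finset.card_univ,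
      nsmul_eq_mul, mul_one]
    field_simp
  rw [h1]
  have h2 := h A hA
  rw [abs_le] at h2 ⊢
  constructor <;> linarith [h2.1, h2.2]

theorem E_chi2 (D : Ω → Fin n → Bool) (β : ℝ)
    (h : ∀ T : Finset (Fin n), T.Nonempty →
      |pr (fun w => decide ((T.filter fun i => D w i = true).card % 2 = 1)) - 1 / 2| ≤ β)
    (A : Finset (Fin n)) (hA : A.Nonempty) :
    |E (fun w : Ω × Bool => chi A (fun i => xor (D w.1 i) w.2))| ≤ 2 * β := by
  have h1 : E (fun w : Ω × Bool => chi A (fun i => xor (D w.1 i) w.2)) =
      E (fun w => chi A (D w)) * ((1 + (-1) ^ A.card) / 2) := by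
    unfold E
    rw [Fintype.card_prod, Fintype.card_bool, Fintype.sum_prod_type]
    have h2 : ∀ w : Ω, ∑ b : Bool, chi A (fun i => xor (D w i) b) =
        chi A (D w) * (1 + (-1) ^ A.card) := by
      intro w
      rw [Fintype.sum_bool, chi_xor, chi_xor]
      simp only [if_true, Bool.false_eq_true, if_false]
      ring
    simp only [h2]
    rw [← Finset.sum_mul]
    push_cast
    have hc : (Fintype.card Ω : ℝ) ≠ 0 := by exact_mod_cast Fintype.card_ne_zero
    field_simp
  rw [h1, abs_mul]
  have h3 : |(1 + (-1 : ℝ) ^ A.card) / 2| ≤ 1 := by
    rcases neg_one_pow_eq_or ℝ A.card with h4 | h4 <;> rw [h4] <;> norm_num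
  have h4 := E_chi D β h A hA
  calc |E (fun w => chi A (D w))| * |(1 + (-1 : ℝ) ^ A.card) / 2|
      ≤ |E (fun w => chi A (D w))| * 1 := mul_le_mul_of_nonneg_left h3 (abs_nonneg _)
    _ ≤ 2 * β := by rw [mul_one]; exact h4

/-- functions with small Fourier norm are fooled -/
theorem fool {ι : Type} (D : Ω → Fin n → Bool) (β : ℝ) (hβ : 0 ≤ β)
    (h : ∀ T : Finset (Fin n), T.Nonempty →
      |pr (fun w => decide ((T.filter fun i => D w i = true).card % 2 = 1)) - 1 / 2| ≤ β)
    (S : Finset ι) (c : ι → ℝ) (A : ι → Finset (Fin n)) (hc : ∑ j ∈ S, |c j| ≤ 1) (C : BF n)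
    (hC : ∀ x, (if C x = true then (1 : ℝ) else 0) = ∑ j ∈ S, c j * chi (A j) x) :
    |pr (fun w : Ω × Bool => C (fun i => xor (D w.1 i) w.2)) - pr C| ≤ 2 * β := by
  have h1 : pr (fun w : Ω × Bool => C (fun i => xor (D w.1 i) w.2)) =
      ∑ j ∈ S, c j * E (fun w : Ω × Bool => chi (A j) (fun i => xor (D w.1 i) w.2)) := by
    rw [pr_eq_E]
    unfold E
    simp only [hC]
    rw [Finset.sum_comm, Finset.sum_div]
    refine Finset.sum_congr rfl fun j _ => ?_
    rw [← Finset.mul_sum, mul_div_assoc]
  have h2 : pr C = ∑ j ∈ S, c j * E (fun x => chi (A j) x) := by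
    rw [pr_eq_E]
    unfold E
    simp only [hC]
    rw [Finset.sum_comm, Finset.sum_div]
    refine Finset.sum_congr rfl fun j _ => ?_
    rw [← Finset.mul_sum, mul_div_assoc]
  rw [h1, h2, ← Finset.sum_sub_distrib]
  calc |∑ j ∈ S, (c j * E (fun w : Ω × Bool => chi (A j) (fun i => xor (D w.1 i) w.2)) -
        c j * E (fun x => chi (A j) x))|
      ≤ ∑ j ∈ S, |c j * E (fun w : Ω × Bool => chi (A j) (fun i => xor (D w.1 i) w.2)) -
        c j * E (fun x => chi (A j) x)| := Finset.abs_sum_le_sum_abs _ _
    _ ≤ ∑ j ∈ S, |c j| * (2 * β) := by
        refine Finset.sum_le_sum fun j _ => ?_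
        rw [← mul_sub, abs_mul]
        apply mul_le_mul_of_nonneg_left _ (abs_nonneg _)
        rcases (A j).eq_empty_or_nonempty with hA | hA
        · rw [hA]
          have h3 : E (fun w : Ω × Bool => chi (∅ : Finset (Fin n)) (fun i => xor (D w.1 i) w.2)) =
              1 := by
            unfold E chi
            simp
          have h4 : E (fun x : Fin n → Bool => chi (∅ : Finset (Fin n)) x) = 1 := by
            unfold E chi
            simp
          rw [h3, h4]
          simp only [sub_self, abs_zero]
          linarith
        · have h4 : E (fun x : Fin n → Bool => chi (A j) x) = 0 := by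
            unfold E
            rw [sum_chi _ hA, zero_div]
          rw [h4, sub_zero]
          exact E_chi2 D β h _ hA
    _ = (∑ j ∈ S, |c j|) * (2 * β) := by rw [Finset.sum_mul]
    _ ≤ 1 * (2 * β) := mul_le_mul_of_nonneg_right hc (by linarith)
    _ = 2 * β := one_mul _

/-- subcubes -/
theorem fool_cube (D : Ω → Fin n → Bool) (β : ℝ) (hβ : 0 ≤ β)
    (h : ∀ T : Finset (Fin n), T.Nonempty →
      |pr (fun w => decide ((T.filter fun i => D w i = true).card % 2 = 1)) - 1 / 2| ≤ β)
    (T : Finset (Fin n)) (a : Fin n → Bool) (C : BF n)
    (hC : ∀ x, C x = true ↔ ∀ i ∈ T, x i = a i) :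
    |pr (fun w : Ω × Bool => C (fun i => xor (D w.1 i) w.2)) - pr C| ≤ 2 * β := by
  classical
  apply fool D β hβ h T.powerset (fun S => (1 / 2) ^ T.card * chi S a) (fun S => S)
  · have h1 : ∀ S : Finset (Fin n), |(1 / 2 : ℝ) ^ T.card * chi S a| = (1 / 2) ^ T.card := by
      intro S
      rw [abs_mul, chi_par]
      have : |(1 / 2 : ℝ) ^ T.card| = (1 / 2) ^ T.card := abs_of_pos (by positivity)
      rw [this]
      split_ifs <;> simp
    simp only [h1]
    rw [Finset.sum_const, Finset.card_powerset, nsmul_eq_mul]
    push_cast
    rw [← mul_pow]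
    norm_num
  · intro x
    have h1 : (if C x = true then (1 : ℝ) else 0) =
        ∏ i ∈ T, ((1 / 2) * (1 + (if a i = true then -1 else 1) * (if x i = true then -1 else 1))) := by
      by_cases hx : C x = true
      · rw [if_pos hx, Finset.prod_eq_one]
        intro i hi
        rw [(hC x).1 hx i hi]
        split_ifs <;> norm_num
      · rw [if_neg hx]
        have h2 : ∃ i ∈ T, x i ≠ a i := by
          by_contra hcon
          push Not at hcon
          exact hx ((hC x).2 hcon)
        obtain ⟨i, hi, hne⟩ := h2
        symm
        apply Finset.prod_eq_zero hi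
        cases h3 : a i <;> cases h4 : x i <;> simp_all
    rw [h1, Finset.prod_mul_distrib, Finset.prod_const, Finset.prod_one_add, Finset.mul_sum]
    refine Finset.sum_congr rfl fun S _ => ?_
    unfold chi
    rw [Finset.prod_mul_distrib]
    ring

end

theorem pr_not {Ω : Type} [Fintype Ω] [Nonempty Ω] (p : Ω → Bool) :
    pr (fun w => !p w) = 1 - pr p := by
  unfold pr
  have hc : (Fintype.card Ω : ℝ) ≠ 0 := by exact_mod_cast Fintype.card_ne_zero
  have h1 : ((univ.filter fun w => (!p w) = true).card : ℝ) =
      Fintype.card Ω - ((univ.filter fun w => p w = true).card : ℝ) := by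
    rw [← Finset.sum_boole, ← Finset.sum_boole]
    have h2 : (Fintype.card Ω : ℝ) = ∑ _w : Ω, (1 : ℝ) := by simp
    rw [h2, ← Finset.sum_sub_distrib]
    refine Finset.sum_congr rfl fun w _ => ?_
    cases p w <;> simp
  rw [h1]
  field_simp

/-- affine functions -/
theorem aff_form {n : ℕ} (C : BF n)
    (hC : ∀ x y z : Fin n → Bool, C (fun i => xor (x i) (xor (y i) (z i))) =
      xor (C x) (xor (C y) (C z))) :
    ∃ (A : Finset (Fin n)) (c : Bool), ∀ x, (if C x = true then (-1 : ℝ) else 1) =
      (if c = true then -1 else 1) * chi A x := by
  classical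
  refine ⟨univ.filter fun i => C (fun j => decide (j = i)) ≠ C (fun _ => false),
    C (fun _ => false), ?_⟩
  -- induction on the support
  have key : ∀ S : Finset (Fin n), (if C (fun j => decide (j ∈ S)) = true then (-1 : ℝ) else 1) =
      (if C (fun _ => false) = true then -1 else 1) *
        chi (univ.filter fun i => C (fun j => decide (j = i)) ≠ C (fun _ => false))
          (fun j => decide (j ∈ S)) := by
    intro S
    induction S using Finset.induction_on with
    | empty => simp [chi]
    | insert i S hi ih =>
      have h1 : C (fun j => decide (j ∈ insert i S)) =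
          xor (C (fun j => decide (j ∈ S))) (xor (C (fun j => decide (j = i)))
            (C (fun _ => false))) := by
        rw [← hC]
        congr 1
        funext j
        by_cases h2 : j = i
        · subst h2; simp [hi]
        · simp [h2]
      have h2 : chi (univ.filter fun i => C (fun j => decide (j = i)) ≠ C (fun _ => false))
          (fun j => decide (j ∈ insert i S)) =
          chi (univ.filter fun i => C (fun j => decide (j = i)) ≠ C (fun _ => false))
            (fun j => decide (j ∈ S)) *
          (if C (fun j => decide (j = i)) ≠ C (fun _ => false) then -1 else 1) := by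
        unfold chi
        by_cases h3 : C (fun j => decide (j = i)) ≠ C (fun _ => false)
        · rw [if_pos h3]
          have hm : i ∈ univ.filter fun i => C (fun j => decide (j = i)) ≠ C (fun _ => false) := by
            simp only [Finset.mem_filter, Finset.mem_univ, true_and]
            exact h3
          rw [← Finset.mul_prod_erase _ _ hm, ← Finset.mul_prod_erase _ _ hm]
          have h4 : ∀ j ∈ (univ.filter fun i => C (fun j => decide (j = i)) ≠
              C (fun _ => false)).erase i, (if decide (j ∈ insert i S) = true then (-1 : ℝ) else 1) =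
              (if decide (j ∈ S) = true then (-1 : ℝ) else 1) := by
            intro j hj
            have := Finset.ne_of_mem_erase hj
            simp [this]
          rw [Finset.prod_congr rfl h4]
          simp [hi]
        · rw [if_neg h3, mul_one]
          refine Finset.prod_congr rfl fun j hj => ?_
          have h5 : j ≠ i := by
            rintro rfl
            simp only [Finset.mem_filter, Finset.mem_univ, true_and] at hj
            exact h3 hj
          simp [h5]
      rw [h2, ← mul_assoc, ← ih, h1]
      cases C (fun j => decide (j ∈ S)) <;> cases C (fun j => decide (j = i)) <;>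
        cases C (fun _ => false) <;> simp
  intro x
  have h1 := key (univ.filter fun i => x i = true)
  have h2 : (fun j => decide (j ∈ univ.filter fun i => x i = true)) = x := by
    funext j
    simp
  rw [h2] at h1
  exact h1

/-- functions commuting with conjunction -/
theorem conj_form {n : ℕ} (C : BF n)
    (hC : ∀ x y : Fin n → Bool, C (fun i => x i && y i) = (C x && C y)) :
    (∀ x, C x = false) ∨ ∃ T : Finset (Fin n), ∀ x, C x = true ↔ ∀ i ∈ T, x i = true := by
  classical
  by_cases h1 : C (fun _ => true) = true
  · right
    refine ⟨univ.filter fun i => C (fun j => decide (j ≠ i)) = false, fun x => ⟨?_, ?_⟩⟩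
    · intro hx i hi
      simp only [Finset.mem_filter, Finset.mem_univ, true_and] at hi
      by_contra hne
      have h2 : C (fun j => x j && decide (j ≠ i)) = (C x && C (fun j => decide (j ≠ i))) := hC _ _
      have h3 : (fun j => x j && decide (j ≠ i)) = x := by
        funext j
        by_cases h4 : j = i
        · subst h4; simp at hne; simp [hne]
        · simp [h4]
      rw [h3, hi, hx] at h2
      simp at h2
    · intro hx
      have key : ∀ S : Finset (Fin n), (∀ i ∈ S, C (fun j => decide (j ≠ i)) = true) →
          C (fun j => decide (j ∉ S)) = true := by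
        intro S
        induction S using Finset.induction_on with
        | empty => intro _; simpa using h1
        | insert i S hi ih =>
          intro h2
          have h3 := ih fun j hj => h2 j (Finset.mem_insert_of_mem hj)
          have h4 := h2 i (Finset.mem_insert_self i S)
          have h5 : (fun j => decide (j ∉ insert i S)) =
              fun j => decide (j ∉ S) && decide (j ≠ i) := by
            funext j
            by_cases h6 : j = i <;> by_cases h7 : j ∈ S <;> simp [h6, h7]
          rw [h5, hC, h3, h4]
          rfl
      have h2 := key (univ.filter fun i => x i = false) (by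
        intro i hi
        simp only [Finset.mem_filter, Finset.mem_univ, true_and] at hi
        by_contra hne
        have h3 : C (fun j => decide (j ≠ i)) = false := by simpa using hne
        have h4 := hx i (by simp only [Finset.mem_filter, Finset.mem_univ, true_and]; exact h3)
        rw [hi] at h4
        exact absurd h4 (by simp))
      have h3 : (fun j => decide (j ∉ univ.filter fun i => x i = false)) = x := by
        funext j
        cases h4 : x j <;> simp [h4]
      rw [h3] at h2
      exact h2
  · left
    intro x
    have h2 : C (fun i => x i && true) = (C x && C (fun _ => true)) := hC x (fun _ => true)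
    have h3 : C (fun _ => true) = false := by simpa using h1
    rw [h3] at h2
    simpa using h2

theorem pr_const {Ω : Type} [Fintype Ω] [Nonempty Ω] (b : Bool) :
    pr (fun _ : Ω => b) = if b = true then 1 else 0 := by
  unfold pr
  cases b
  · simp
  · simp

theorem t_FOO : S_FOO := by
  classical
  intro Ω _ _ n D β hβ h B s C hB hC
  rcases hB with hB | hB | hB | hB
  · -- affine
    have hA : ∀ x y z : Fin n → Bool, C (fun i => xor (x i) (xor (y i) (z i))) =
        xor (C x) (xor (C y) (C z)) := by
      apply computes_ind (P := fun C : BF n => ∀ x y z : Fin n → Bool,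
        C (fun i => xor (x i) (xor (y i) (z i))) = xor (C x) (xor (C y) (C z))) _ _ hC
      · intro i x y z; rfl
      · intro k f g hf hg x y z
        simp only [hg]
        exact hB hf _ _ _
    obtain ⟨A, c, hA⟩ := aff_form C hA
    apply fool D β hβ h (univ : Finset Bool)
      (fun b => if b = true then 1 / 2 else -(1 / 2) * (if c = true then -1 else 1))
      (fun b => if b = true then ∅ else A)
    · rw [Fintype.sum_bool]
      cases c <;> norm_num
    · intro x
      have h1 := hA x
      rw [Fintype.sum_bool]
      simp only [if_true, Bool.false_eq_true, if_false]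
      have h2 : chi (∅ : Finset (Fin n)) x = 1 := by simp [chi]
      rw [h2, mul_assoc, ← h1]
      cases C x <;> norm_num
  · -- conjunctions
    have hA : ∀ x y : Fin n → Bool, C (fun i => x i && y i) = (C x && C y) := by
      apply computes_ind (P := fun C : BF n => ∀ x y : Fin n → Bool,
        C (fun i => x i && y i) = (C x && C y)) _ _ hC
      · intro i x y; rfl
      · intro k f g hf hg x y
        simp only [hg]
        exact hB hf _ _
    rcases conj_form C hA with h1 | ⟨T, hT⟩
    · have h2 : C = fun _ => false := funext h1
      rw [h2, pr_const, pr_const]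
      simp only [sub_self, abs_zero]
      linarith
    · exact fool_cube D β hβ h T (fun _ => true) C hT
  · -- disjunctions
    have hA : ∀ x y : Fin n → Bool, C (fun i => x i || y i) = (C x || C y) := by
      apply computes_ind (P := fun C : BF n => ∀ x y : Fin n → Bool,
        C (fun i => x i || y i) = (C x || C y)) _ _ hC
      · intro i x y; rfl
      · intro k f g hf hg x y
        simp only [hg]
        exact hB hf _ _
    set C' : BF n := fun x => !C (fun i => !x i) with hC'
    have hA' : ∀ x y : Fin n → Bool, C' (fun i => x i && y i) = (C' x && C' y) := by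
      intro x y
      simp only [hC', Bool.not_and]
      rw [hA, Bool.not_or]
    have hCC : ∀ x, C x = !C' (fun i => !x i) := by
      intro x
      simp only [hC', Bool.not_not]
    rcases conj_form C' hA' with h1 | ⟨T, hT⟩
    · have h2 : C = fun _ => true := by
        funext x
        rw [hCC, h1]
        rfl
      rw [h2, pr_const, pr_const]
      simp only [sub_self, abs_zero]
      linarith
    · have h2 := fool_cube D β hβ h T (fun _ => false) (fun x => !C x) (by
        intro x
        rw [hCC, Bool.not_not, hT]
        simp)
      rw [pr_not (fun w : Ω × Bool => C (fun i => xor (D w.1 i) w.2)), pr_not C] at h2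
      have h3 : 1 - pr (fun w : Ω × Bool => C (fun i => xor (D w.1 i) w.2)) - (1 - pr C) =
          -(pr (fun w : Ω × Bool => C (fun i => xor (D w.1 i) w.2)) - pr C) := by ring
      rw [h3, abs_neg] at h2
      exact h2
  · -- self-dual functions
    have hA : ∀ x : Fin n → Bool, C (fun i => !x i) = !C x := by
      apply computes_ind (P := fun C : BF n => ∀ x : Fin n → Bool,
        C (fun i => !x i) = !C x) _ _ hC
      · intro i x; rfl
      · intro k f g hf hg x
        simp only [hg]
        exact hB hf _
    have h1 : pr C = 1 / 2 := by
      have h2 : pr (fun x : Fin n → Bool => C (fun i => !x i)) = pr C := by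
        unfold pr
        congr 2
        apply Finset.card_bij (fun (x : Fin n → Bool) _ => fun i => !x i)
        · intro x hx
          simpa using hx
        · intro x _ y _ hxy
          funext i
          have := congrFun hxy i
          simpa using this
        · intro y hy
          refine ⟨fun i => !y i, ?_, ?_⟩
          · simpa using hy
          · funext i; simp
      have h3 : (fun x : Fin n → Bool => C (fun i => !x i)) = fun x => !C x := funext hA
      rw [h3, pr_not] at h2
      linarith
    have h2 : pr (fun w : Ω × Bool => C (fun i => xor (D w.1 i) w.2)) = 1 / 2 := by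
      rw [pr_eq_E]
      unfold E
      rw [Fintype.card_prod, Fintype.card_bool, Fintype.sum_prod_type]
      have h3 : ∀ w : Ω, ∑ b : Bool, (if C (fun i => xor (D w i) b) = true then (1 : ℝ) else 0) =
          1 := by
        intro w
        rw [Fintype.sum_bool]
        simp only [Bool.xor_true, Bool.xor_false, hA]
        cases C (D w) <;> simp
      simp only [h3, Finset.sum_const, Finset.card_univ, nsmul_eq_mul, mul_one]
      have hc : (Fintype.card Ω : ℝ) ≠ 0 := by exact_mod_cast Fintype.card_ne_zero
      push_cast
      field_simp
    rw [h1, h2]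
    simp only [sub_self, abs_zero]
    linarith

end Pool.Agent.W369.PrgFoo
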