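import Pool.Agent.H547R7.Stm

/-! Task PRG-SAM (MP_ca1109_lc, project of helper951): the sampling lemma. -/

set_option autoImplicit false

namespace Pool.Agent.W369.PrgSam

open Pool.Agent.H547R7 Finset

theorem count_le {Ω : Type} [Fintype Ω] [Nonempty Ω] (f : Ω → ℝ) (T : ℕ) (δ : ℝ) (hδ : 0 < δ)
    (hδ1 : δ ≤ 1) (hf : ∀ ω, |f ω| ≤ 1) (h0 : ∑ ω, f ω = 0) :
    ((univ.filter fun s : Fin T → Ω => δ * T < ∑ i, f (s i)).card : ℝ) ≤
      (Fintype.card Ω : ℝ) ^ T * Real.exp (-(T * δ ^ 2 / 4)) := by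
  have hcard : (0 : ℝ) < Fintype.card Ω := by exact_mod_cast Fintype.card_pos
  have h1 : ∑ s : Fin T → Ω, Real.exp (δ / 2 * ∑ i, f (s i)) =
      (∑ ω, Real.exp (δ / 2 * f ω)) ^ T := by
    rw [Fintype.sum_pow]
    refine Finset.sum_congr rfl fun s _ => ?_
    rw [Finset.mul_sum, Real.exp_sum]
  have h2 : ∑ ω, Real.exp (δ / 2 * f ω) ≤ Fintype.card Ω * Real.exp (δ ^ 2 / 4) := by
    have h3 : ∀ ω ∈ (univ : Finset Ω), Real.exp (δ / 2 * f ω) ≤ 1 + δ / 2 * f ω + δ ^ 2 / 4 := by
      intro ω _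
      have hx : |δ / 2 * f ω| ≤ 1 := by
        rw [abs_mul, abs_of_pos (by positivity : (0 : ℝ) < δ / 2)]
        nlinarith [hf ω, abs_nonneg (f ω)]
      have h4 := Real.abs_exp_sub_one_sub_id_le hx
      have h5 := (abs_le.1 h4).2
      have h6 : f ω ^ 2 ≤ 1 := by
        rw [← sq_abs]
        have := hf ω
        nlinarith [abs_nonneg (f ω)]
      have h7 : (δ / 2 * f ω) ^ 2 ≤ δ ^ 2 / 4 := by
        have : (δ / 2 * f ω) ^ 2 = δ ^ 2 / 4 * f ω ^ 2 := by ring
        rw [this]
        nlinarith [sq_nonneg δ]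
      linarith
    have h4 : 1 + δ ^ 2 / 4 ≤ Real.exp (δ ^ 2 / 4) := by
      have := Real.add_one_le_exp (δ ^ 2 / 4)
      linarith
    calc ∑ ω, Real.exp (δ / 2 * f ω) ≤ ∑ ω, (1 + δ / 2 * f ω + δ ^ 2 / 4) := Finset.sum_le_sum h3
      _ = Fintype.card Ω * (1 + δ ^ 2 / 4) := by
        rw [Finset.sum_add_distrib, Finset.sum_add_distrib, ← Finset.mul_sum, h0]
        simp only [Finset.sum_const, Finset.card_univ, nsmul_eq_mul]
        ring
      _ ≤ Fintype.card Ω * Real.exp (δ ^ 2 / 4) := mul_le_mul_of_nonneg_left h4 hcard.le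
  have h3 : ((univ.filter fun s : Fin T → Ω => δ * T < ∑ i, f (s i)).card : ℝ) *
      Real.exp (T * δ ^ 2 / 2) ≤ ∑ s : Fin T → Ω, Real.exp (δ / 2 * ∑ i, f (s i)) := by
    calc ((univ.filter fun s : Fin T → Ω => δ * T < ∑ i, f (s i)).card : ℝ) *
          Real.exp (T * δ ^ 2 / 2)
        = ∑ s ∈ univ.filter (fun s : Fin T → Ω => δ * T < ∑ i, f (s i)),
            Real.exp (T * δ ^ 2 / 2) := by rw [Finset.sum_const, nsmul_eq_mul]
      _ ≤ ∑ s ∈ univ.filter (fun s : Fin T → Ω => δ * T < ∑ i, f (s i)),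
            Real.exp (δ / 2 * ∑ i, f (s i)) := by
          apply Finset.sum_le_sum
          intro s hs
          rw [Finset.mem_filter] at hs
          apply Real.exp_le_exp.2
          nlinarith [hs.2]
      _ ≤ _ := Finset.sum_le_sum_of_subset_of_nonneg (Finset.filter_subset _ _)
          fun s _ _ => (Real.exp_pos _).le
  have h4 : (∑ ω, Real.exp (δ / 2 * f ω)) ^ T ≤
      (Fintype.card Ω : ℝ) ^ T * Real.exp (T * δ ^ 2 / 4) := by
    calc (∑ ω, Real.exp (δ / 2 * f ω)) ^ T ≤ (Fintype.card Ω * Real.exp (δ ^ 2 / 4)) ^ T :=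
          pow_le_pow_left₀ (Finset.sum_nonneg fun ω _ => (Real.exp_pos _).le) h2 T
      _ = _ := by
        rw [mul_pow, ← Real.exp_nat_mul]
        congr 2
        ring
  have h5 : ((univ.filter fun s : Fin T → Ω => δ * T < ∑ i, f (s i)).card : ℝ) *
      Real.exp (T * δ ^ 2 / 2) ≤ (Fintype.card Ω : ℝ) ^ T * Real.exp (T * δ ^ 2 / 4) := by
    rw [h1] at h3
    exact h3.trans h4
  have h6 : Real.exp (T * δ ^ 2 / 4) = Real.exp (-(T * δ ^ 2 / 4)) * Real.exp (T * δ ^ 2 / 2) := by
    rw [← Real.exp_add]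
    congr 1
    ring
  rw [h6, ← mul_assoc] at h5
  exact le_of_mul_le_mul_right h5 (Real.exp_pos _)

theorem t_SAM : S_SAM := by
  classical
  intro Ω Y _ _ _ h n T δ hδ hδ1 hY hT
  have hcard : (0 : ℝ) < Fintype.card Ω := by exact_mod_cast Fintype.card_pos
  have hT0 : (0 : ℝ) < T := by
    by_contra hcon
    have h1 : (T : ℝ) ≤ 0 := not_lt.1 hcon
    have h2 : (0 : ℝ) ≤ n := Nat.cast_nonneg n
    nlinarith [sq_nonneg δ]
  -- bad samples
  set bad : Y → Finset (Fin T → Ω) := fun y => univ.filter fun s : Fin T → Ω =>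
    δ < |((Finset.univ.filter fun i => h y (s i) = true).card : ℝ) / T - pr (h y)| with hbad
  have hmu : ∀ y, pr (h y) * Fintype.card Ω =
      ((univ.filter fun ω => h y ω = true).card : ℝ) := by
    intro y
    unfold pr
    field_simp
  have hmu0 : ∀ y, 0 ≤ pr (h y) := by
    intro y; unfold pr; positivity
  have hmu1 : ∀ y, pr (h y) ≤ 1 := by
    intro y
    unfold pr
    rw [div_le_one hcard]
    exact_mod_cast Finset.card_le_univ _
  have hb : ∀ y, ((bad y).card : ℝ) ≤
      2 * ((Fintype.card Ω : ℝ) ^ T * Real.exp (-((n : ℝ) + 2))) := by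
    intro y
    set f : Ω → ℝ := fun ω => (if h y ω = true then 1 else 0) - pr (h y) with hf
    have hf1 : ∀ ω, |f ω| ≤ 1 := by
      intro ω
      simp only [hf]
      rw [abs_le]
      split_ifs
      · constructor <;> linarith [hmu0 y, hmu1 y]
      · constructor <;> linarith [hmu0 y, hmu1 y]
    have hf0 : ∑ ω, f ω = 0 := by
      simp only [hf]
      rw [Finset.sum_sub_distrib, Finset.sum_boole, Finset.sum_const, Finset.card_univ,
        nsmul_eq_mul, ← hmu y]
      ring
    have hfs : ∀ s : Fin T → Ω, ∑ i, f (s i) =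
        ((Finset.univ.filter fun i => h y (s i) = true).card : ℝ) - T * pr (h y) := by
      intro s
      simp only [hf]
      rw [Finset.sum_sub_distrib, Finset.sum_boole, Finset.sum_const, Finset.card_univ,
        nsmul_eq_mul, Fintype.card_fin]
    have c1 := count_le f T δ hδ hδ1 hf1 hf0
    have c2 := count_le (fun ω => -f ω) T δ hδ hδ1 (fun ω => by rw [abs_neg]; exact hf1 ω)
      (by rw [Finset.sum_neg_distrib, hf0, neg_zero])
    have hexp : Real.exp (-(T * δ ^ 2 / 4)) ≤ Real.exp (-((n : ℝ) + 2)) := by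
      apply Real.exp_le_exp.2
      linarith
    have hsub : bad y ⊆ (univ.filter fun s : Fin T → Ω => δ * T < ∑ i, f (s i)) ∪
        (univ.filter fun s : Fin T → Ω => δ * T < ∑ i, -f (s i)) := by
      intro s hs
      simp only [hbad, Finset.mem_filter, Finset.mem_univ, true_and] at hs
      simp only [Finset.mem_union, Finset.mem_filter, Finset.mem_univ, true_and,
        Finset.sum_neg_distrib, hfs]
      rcases lt_abs.1 hs with h1 | h1
      · left
        rw [lt_sub_iff_add_lt, lt_div_iff₀ hT0] at h1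
        linarith
      · right
        rw [neg_sub, lt_sub_comm, div_lt_iff₀ hT0] at h1
        linarith
    have hpos : (0 : ℝ) ≤ (Fintype.card Ω : ℝ) ^ T := by positivity
    calc ((bad y).card : ℝ) ≤ (((univ.filter fun s : Fin T → Ω => δ * T < ∑ i, f (s i)) ∪
          (univ.filter fun s : Fin T → Ω => δ * T < ∑ i, -f (s i))).card : ℝ) := by
            exact_mod_cast Finset.card_le_card hsub
      _ ≤ ((univ.filter fun s : Fin T → Ω => δ * T < ∑ i, f (s i)).card : ℝ) +
          ((univ.filter fun s : Fin T → Ω => δ * T < ∑ i, -f (s i)).card : ℝ) := by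
            exact_mod_cast Finset.card_union_le _ _
      _ ≤ (Fintype.card Ω : ℝ) ^ T * Real.exp (-(T * δ ^ 2 / 4)) +
          (Fintype.card Ω : ℝ) ^ T * Real.exp (-(T * δ ^ 2 / 4)) := add_le_add c1 c2
      _ ≤ 2 * ((Fintype.card Ω : ℝ) ^ T * Real.exp (-((n : ℝ) + 2))) := by
            have := mul_le_mul_of_nonneg_left hexp hpos
            linarith
  -- union bound
  have hex : ((univ.biUnion bad).card : ℝ) < (Fintype.card (Fin T → Ω) : ℝ) := by
    have hcf : (Fintype.card (Fin T → Ω) : ℝ) = (Fintype.card Ω : ℝ) ^ T := by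
      rw [Fintype.card_fun, Fintype.card_fin]; push_cast; ring
    have hpos : (0 : ℝ) < (Fintype.card Ω : ℝ) ^ T := by positivity
    have hYr : (Fintype.card Y : ℝ) ≤ 2 ^ n := by exact_mod_cast hY
    have he : (2 : ℝ) ^ (n + 1) * Real.exp (-((n : ℝ) + 2)) < 1 := by
      have h2e : (2 : ℝ) < Real.exp 1 := by
        have := Real.exp_one_gt_d9
        linarith
      have h3 : (2 : ℝ) ^ (n + 1) ≤ Real.exp ((n : ℝ) + 1) := by
        have : Real.exp ((n : ℝ) + 1) = (Real.exp 1) ^ (n + 1) := by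
          rw [← Real.exp_nat_mul]
          congr 1
          push_cast
          ring
        rw [this]
        exact pow_le_pow_left₀ (by norm_num) h2e.le _
      calc (2 : ℝ) ^ (n + 1) * Real.exp (-((n : ℝ) + 2))
          ≤ Real.exp ((n : ℝ) + 1) * Real.exp (-((n : ℝ) + 2)) :=
            mul_le_mul_of_nonneg_right h3 (Real.exp_pos _).le
        _ = Real.exp (-1) := by rw [← Real.exp_add]; congr 1; ring
        _ < 1 := by rw [Real.exp_lt_one_iff]; norm_num
    calc ((univ.biUnion bad).card : ℝ) ≤ ∑ y : Y, ((bad y).card : ℝ) := by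
          exact_mod_cast Finset.card_biUnion_le
      _ ≤ ∑ _y : Y, 2 * ((Fintype.card Ω : ℝ) ^ T * Real.exp (-((n : ℝ) + 2))) :=
          Finset.sum_le_sum fun y _ => hb y
      _ = (Fintype.card Y : ℝ) * (2 * ((Fintype.card Ω : ℝ) ^ T * Real.exp (-((n : ℝ) + 2)))) := by
          rw [Finset.sum_const, Finset.card_univ, nsmul_eq_mul]
      _ ≤ 2 ^ n * (2 * ((Fintype.card Ω : ℝ) ^ T * Real.exp (-((n : ℝ) + 2)))) := by
          apply mul_le_mul_of_nonneg_right hYr
          positivity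
      _ = (Fintype.card Ω : ℝ) ^ T * ((2 : ℝ) ^ (n + 1) * Real.exp (-((n : ℝ) + 2))) := by ring
      _ < (Fintype.card Ω : ℝ) ^ T * 1 := mul_lt_mul_of_pos_left he hpos
      _ = _ := by rw [hcf, mul_one]
  have hex' : (univ.biUnion bad).card < Fintype.card (Fin T → Ω) := by exact_mod_cast hex
  obtain ⟨s, hs⟩ : ∃ s, s ∉ univ.biUnion bad := by
    by_contra hcon
    push Not at hcon
    have : univ.biUnion bad = univ := Finset.eq_univ_iff_forall.2 hcon
    rw [this, Finset.card_univ] at hex'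
    exact lt_irrefl _ hex'
  refine ⟨s, fun y => ?_⟩
  by_contra hcon
  apply hs
  rw [Finset.mem_biUnion]
  refine ⟨y, Finset.mem_univ _, ?_⟩
  simp only [hbad, Finset.mem_filter, Finset.mem_univ, true_and]
  exact not_le.1 hcon

end Pool.Agent.W369.PrgSam
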